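import Pool.Agent.NH32.LP.Defs

/-!
# Lipschitz spaces over non-porous sets: assembly
-/

set_option autoImplicit false

namespace Pool.Agent.NH32.LP

open Pool.Agent.H266R3.LF Pool.Agent.NH62.Lip Pool.Agent.H266R3.BN
open scoped ENNReal

namespace Asm

theorem cp_of_iso {V W : Type} [NormedAddCommGroup V] [NormedSpace ℝ V] [NormedAddCommGroup W]
    [NormedSpace ℝ W] (e : V ≃L[ℝ] W) : Cp V W :=
  ⟨e, e.symm, fun v => e.symm_apply_apply v⟩

theorem cp_of_isoC {Z W : Type} [NormedAddCommGroup Z] [NormedSpace ℝ Z]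
    [NormedAddCommGroup W] [NormedSpace ℝ W] (h : IsoComplemented Z W) : Cp Z W := by
  obtain ⟨P, hP, ⟨e⟩⟩ := h
  have hmem : ∀ w, P w ∈ LinearMap.range (P : W →ₗ[ℝ] W) := fun w => ⟨w, rfl⟩
  refine ⟨(Submodule.subtypeL (LinearMap.range (P : W →ₗ[ℝ] W))).comp
      (e : Z →L[ℝ] LinearMap.range (P : W →ₗ[ℝ] W)),
    (e.symm : LinearMap.range (P : W →ₗ[ℝ] W) →L[ℝ] Z).comp (P.codRestrict _ hmem), fun z => ?_⟩
  show e.symm ⟨P (e z : W), _⟩ = z
  have h1 : P (e z : W) = (e z : W) := by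
    obtain ⟨w, hw⟩ := (e z).2
    rw [← hw]
    exact hP w
  have h2 : (⟨P (e z : W), hmem _⟩ : LinearMap.range (P : W →ₗ[ℝ] W)) = e z := Subtype.ext h1
  rw [h2]
  exact e.symm_apply_apply z

theorem isoC_of_cp {Z W : Type} [NormedAddCommGroup Z] [NormedSpace ℝ Z]
    [NormedAddCommGroup W] [NormedSpace ℝ W] (h : Cp Z W) : IsoComplemented Z W := by
  obtain ⟨S, T, hST⟩ := h
  exact isoComplemented_of_factor S T hST

theorem cp_li (h1 : S_add) (h2 : S_card) (I W : Type) [Infinite I] [NormedAddCommGroup W]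
    [NormedSpace ℝ W] : Cp W (Li I W) := by
  obtain ⟨⟨e⟩, -⟩ := h2 I
  obtain ⟨f⟩ := h1 I W e
  refine Cp.trans (V := W × Li I W) ⟨ContinuousLinearMap.inl ℝ W (Li I W),
    ContinuousLinearMap.fst ℝ W (Li I W), fun v => rfl⟩ (cp_of_iso f.symm)

theorem nontriv {X : Type} [NormedAddCommGroup X] {M : Set X} (h : ¬ Porous M) :
    Nontrivial X := by
  by_contra hn
  rw [not_nontrivial_iff_subsingleton] at hn
  apply h
  refine ⟨1, one_pos, fun p r hr h1 => ?_⟩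
  have h2 : Metric.ediam (Set.univ : Set X) = 0 := Metric.ediam_subsingleton Set.subsingleton_univ
  rw [h2] at h1
  have h3 := ENNReal.ofReal_pos.2 hr
  exact absurd h1 (not_le.2 h3)

theorem cp_nonporous (hnp : S_np) (hsel : S_sel) (hop : S_op) {X : Type} [NormedAddCommGroup X]
    [NormedSpace ℝ X] [Nontrivial X] {M : Set X} (o : M) (h : ¬ Porous M) :
    Cp (Li ℕ (Lip0 X 0)) (Lip0 M o) := by
  obtain ⟨c, s, h1, h2⟩ := hsel X M (hnp X M h) (fun k => 1 / (((Nat.unpair k).2 : ℝ) + 1) ^ 2)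
    (fun k => by positivity)
  refine hop X M ℕ Subtype.val o (fun t => c (Nat.pair t.1 t.2)) (fun t => s (Nat.pair t.1 t.2))
    isometry_subtype_coe (fun t => (h1 _).1) ?_ ?_
  · rintro ⟨i, n⟩ ⟨j, m⟩ hne
    have hne' : Nat.pair i n ≠ Nat.pair j m := by
      intro he
      apply hne
      have := Nat.pair_eq_pair.1 he
      exact Prod.ext this.1 this.2
    have h3 := h2 _ _ hne'
    have h4 := (h1 (Nat.pair i n)).1
    have h5 := (h1 (Nat.pair j m)).1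
    show 2 * (s (Nat.pair i n) + s (Nat.pair j m)) ≤ _
    linarith
  · intro i n y hy
    obtain ⟨m, hm, hmy⟩ := (h1 (Nat.pair i n)).2 y hy
    refine ⟨⟨m, hm⟩, ?_⟩
    simp only [Nat.unpair_pair] at hmy
    refine hmy.trans (le_of_eq ?_)
    ring

theorem cp_sep (hop : S_op) {X I : Type} [NormedAddCommGroup X] [NormedSpace ℝ X]
    (e : I × ℕ ≃ I) (c : I → X) (hc : ∀ i j, i ≠ j → 1 ≤ ‖c i - c j‖) :
    Cp (Li I (Lip0 X 0)) (Lip0 X 0) := by
  refine hop X X I id 0 (fun t => c (e t)) (fun _ => 1 / 4) isometry_id (fun t => by norm_num)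
    ?_ ?_
  · intro t t' hne
    have := hc (e t) (e t') (fun h => hne (e.injective h))
    show 2 * ((1:ℝ) / 4 + 1 / 4) ≤ _
    linarith
  · intro i n y _
    refine ⟨y, ?_⟩
    show ‖y - y‖ ≤ _
    rw [sub_self, norm_zero]
    positivity

end Asm

open Asm

theorem main_of (hcongr : S_congr) (hadd : S_add) (hcard : S_card) (hpelc : S_pelc) (hnp : S_np)
    (hsel : S_sel) (hop : S_op) (hfin : S_fin) (hloc : S_loc) (hsep : S_sep) (hdense : S_dense)
    (X : Type) [NormedAddCommGroup X] [NormedSpace ℝ X] (M : Set X) (o : M) (h : ¬ Porous M) :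
    IsoComplemented (Lip0 X 0) (Lip0 M o) ∧
    (Nonempty (Lip0 M o ≃L[ℝ] Lip0 X 0) ↔ IsoComplemented (Lip0 M o) (Lip0 X 0)) ∧
    (UnifL1 X → Nonempty (Lip0 M o ≃L[ℝ] Lip0 X 0)) := by
  have := nontriv h
  obtain ⟨I, c, D, hI, hc, hD⟩ := hsep X
  obtain ⟨-, -, ⟨e1⟩, ⟨e2⟩⟩ := hcard I
  have k1 : Cp (Lip0 X 0) (Lip0 M o) :=
    (cp_li hadd hcard ℕ (Lip0 X 0)).trans (cp_nonporous hnp hsel hop o h)
  obtain ⟨f⟩ := hpelc I (Lip0 X 0) (Lip0 X 0) (cp_sep hop e1 c hc) (cp_li hadd hcard I (Lip0 X 0))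
  have k2 : Cp (Lip0 M o) (Lip0 X 0) → Nonempty (Lip0 M o ≃L[ℝ] Lip0 X 0) := by
    intro h2
    obtain ⟨g⟩ := hpelc I (Lip0 M o) (Lip0 X 0) ((cp_of_iso f.symm).trans k1)
      (h2.trans (cp_of_iso f))
    exact ⟨g.trans f.symm⟩
  refine ⟨isoC_of_cp k1, ⟨fun ⟨g⟩ => isoC_of_cp (cp_of_iso g), fun h2 => k2 (cp_of_isoC h2)⟩, ?_⟩
  rintro ⟨C, hC⟩
  apply k2
  have hC0 : 0 ≤ C := by
    obtain ⟨w, _, _, hw, _⟩ := hC 1
    exact (norm_nonneg _).trans (hw 0)
  have : Nonempty M := ⟨o⟩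
  obtain ⟨m, hm⟩ := hdense X M (ℕ × I) Subtype.val D isometry_subtype_coe hD
  have k3 : Cp (Lip0 M o) (Li (Finset (ℕ × (ℕ × I))) (Lip0 X 0)) := by
    refine hloc M (ℕ × (ℕ × I)) (Lip0 X 0) o m (18 * C) (2 * C) hm fun S => ?_
    have : Finite (Fs m o S) := ((S.finite_toSet.image m).insert o).to_subtype
    exact hfin X (Fs m o S) ⟨o, Set.mem_insert _ _⟩ C hC0 hC
  obtain ⟨g⟩ := hcongr (Finset (ℕ × (ℕ × I))) I (Lip0 X 0) (Lip0 X 0) e2
    (ContinuousLinearEquiv.refl ℝ _)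
  exact (k3.trans (cp_of_iso g)).trans (cp_of_iso f.symm)

/-- All Lipschitz spaces of subsets factor, if those of the finite subsets do so uniformly. -/
theorem sub_of (hcongr : S_congr) (hadd : S_add) (hcard : S_card) (hpelc : S_pelc)
    (hop : S_op) (hloc : S_loc) (hsep : S_sep) (hdense : S_dense)
    (X : Type) [NormedAddCommGroup X] [NormedSpace ℝ X] [Nontrivial X] (Z : Set X) (o : Z)
    (a b : ℝ) (hF : ∀ (F : Set X) (o' : F), F.Finite → F ⊆ Z → Fac a b (Lip0 F o') (Lip0 X 0)) :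
    Cp (Lip0 Z o) (Lip0 X 0) := by
  obtain ⟨I, c, D, hI, hc, hD⟩ := hsep X
  obtain ⟨-, -, ⟨e1⟩, ⟨e2⟩⟩ := hcard I
  obtain ⟨f⟩ := hpelc I (Lip0 X 0) (Lip0 X 0) (cp_sep hop e1 c hc) (cp_li hadd hcard I (Lip0 X 0))
  have : Nonempty Z := ⟨o⟩
  obtain ⟨m, hm⟩ := hdense X Z (ℕ × I) Subtype.val D isometry_subtype_coe hD
  have k3 : Cp (Lip0 Z o) (Li (Finset (ℕ × (ℕ × I))) (Lip0 X 0)) := by
    refine hloc Z (ℕ × (ℕ × I)) (Lip0 X 0) o m a b hm fun S => ?_
    have hfin : (Fs m o S).Finite := (S.finite_toSet.image m).insert o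
    let F : Set X := Subtype.val '' (Fs m o S)
    have hFf : F.Finite := hfin.image _
    have hFZ : F ⊆ Z := by
      rintro _ ⟨z, _, rfl⟩
      exact z.2
    let o' : F := ⟨o, ⟨o, Set.mem_insert _ _, rfl⟩⟩
    obtain ⟨J, Q, hJ, hQ, hQJ⟩ := hF F o' hFf hFZ
    -- the isometry between the two forms of the finite set
    let φ : Fs m o S → F := fun z => ⟨z.1.1, ⟨z.1, z.2, rfl⟩⟩
    let ψ : F → Fs m o S := fun x => ⟨⟨x.1, hFZ x.2⟩, by
      obtain ⟨z, hz, hzx⟩ := x.2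
      have : (⟨x.1, hFZ x.2⟩ : Z) = z := Subtype.ext hzx.symm
      rw [this]
      exact hz⟩
    have hφ : ∀ x y, dist (φ x) (φ y) = dist x y := fun x y => rfl
    have hψ : ∀ x y, dist (ψ x) (ψ y) = dist x y := fun x y => rfl
    have hψφ : ∀ z, ψ (φ z) = z := fun z => rfl
    have hφo : φ ⟨o, Set.mem_insert _ _⟩ = o' := rfl
    have hψo : ψ o' = ⟨o, Set.mem_insert _ _⟩ := rfl
    let A : Lip0 (Fs m o S) ⟨o, Set.mem_insert _ _⟩ →L[ℝ] Lip0 F o' := LinearMap.mkContinuous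
      { toFun := fun g => Lip0.mk (fun x => g.fn (ψ x)) (by rw [hψo]; exact g.fn_base) ‖g‖
          (norm_nonneg _) (fun x y => by rw [← hψ x y]; exact g.abs_sub_le _ _)
        map_add' := fun f g => Lip0.ext fun x => rfl
        map_smul' := fun c f => Lip0.ext fun x => rfl } 1 (fun g => by
          apply Lip0.norm_le' _ (by positivity)
          intro x y
          rw [one_mul, ← hψ x y]
          exact g.abs_sub_le _ _)
    let B : Lip0 F o' →L[ℝ] Lip0 (Fs m o S) ⟨o, Set.mem_insert _ _⟩ := LinearMap.mkContinuous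
      { toFun := fun g => Lip0.mk (fun x => g.fn (φ x)) (by rw [hφo]; exact g.fn_base) ‖g‖
          (norm_nonneg _) (fun x y => by rw [← hφ x y]; exact g.abs_sub_le _ _)
        map_add' := fun f g => Lip0.ext fun x => rfl
        map_smul' := fun c f => Lip0.ext fun x => rfl } 1 (fun g => by
          apply Lip0.norm_le' _ (by positivity)
          intro x y
          rw [one_mul, ← hφ x y]
          exact g.abs_sub_le _ _)
    have hA : ‖A‖ ≤ 1 := LinearMap.mkContinuous_norm_le _ zero_le_one _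
    have hB : ‖B‖ ≤ 1 := LinearMap.mkContinuous_norm_le _ zero_le_one _
    refine ⟨J.comp A, B.comp Q, ?_, ?_, fun g => ?_⟩
    · refine (ContinuousLinearMap.opNorm_comp_le _ _).trans ?_
      calc ‖J‖ * ‖A‖ ≤ ‖J‖ * 1 := mul_le_mul_of_nonneg_left hA (norm_nonneg _)
        _ ≤ a := by rw [mul_one]; exact hJ
    · refine (ContinuousLinearMap.opNorm_comp_le _ _).trans ?_
      calc ‖B‖ * ‖Q‖ ≤ 1 * ‖Q‖ := mul_le_mul_of_nonneg_right hB (norm_nonneg _)
        _ ≤ b := by rw [one_mul]; exact hQ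
    · show B (Q (J (A g))) = g
      rw [hQJ]
      exact Lip0.ext fun z => rfl
  obtain ⟨g⟩ := hcongr (Finset (ℕ × (ℕ × I))) I (Lip0 X 0) (Lip0 X 0) e2
    (ContinuousLinearEquiv.refl ℝ _)
  exact (k3.trans (cp_of_iso g)).trans (cp_of_iso f.symm)

end Pool.Agent.NH32.LP
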