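import Pool.Agent.NH62.Lip.Main
import Pool.Agent.NH62.Lip.Compl
import Pool.Agent.H266R3.Pelc

/-!
# Lipschitz spaces over non-porous sets: definitions and the statements of the parts

`Cp V W` (from `Pool.Agent.H266R3.BN`) : the identity of `V` factors through `W`.
`psi R` (from `Pool.Agent.NH62.Lip.Glue`) : truncation, the identity on the `R`-ball, zero outside
the `2 R`-ball, `3`-Lipschitz.   `ulim U` : the limit of a bounded real family along `U`.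
-/

set_option autoImplicit false

namespace Pool.Agent.NH32.LP

open Pool.Agent.H266R3.LF Pool.Agent.NH62.Lip Pool.Agent.H266R3.BN
open scoped ENNReal

/-- `M` is porous in `X`. -/
def Porous {X : Type} [NormedAddCommGroup X] (M : Set X) : Prop :=
  ∃ l : ℝ, 0 < l ∧ ∀ (p : X) (r : ℝ), 0 < r →
    ENNReal.ofReal r ≤ Metric.ediam (Set.univ : Set X) →
    ∃ x : X, Metric.closedBall x (l * r) ⊆ Metric.closedBall p r \ M

/-- `X` contains a `C`-complemented copy of `ℓ_1^n`. -/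
def L1Data (X : Type) [NormedAddCommGroup X] [NormedSpace ℝ X] (C : ℝ) (n : ℕ) : Prop :=
  ∃ (w : Fin n → X) (φ : Fin n → X →L[ℝ] ℝ), (∀ i j, φ i (w j) = if i = j then 1 else 0) ∧
    (∀ j, ‖w j‖ ≤ C) ∧ ∀ x, ∑ i, |φ i x| ≤ C * ‖x‖

/-- `X` contains uniformly complemented `ℓ_1^n`'s. -/
def UnifL1 (X : Type) [NormedAddCommGroup X] [NormedSpace ℝ X] : Prop :=
  ∃ C : ℝ, ∀ n : ℕ, L1Data X C n

/-- The `ℓ_∞`-sum of copies of `Y` indexed by `I`. -/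
abbrev Li (I Y : Type) [NormedAddCommGroup Y] : Type := lp (fun _ : I => Y) ∞

/-- The identity of `V` factors through `W`, with norm bounds. -/
def Fac (c d : ℝ) (V W : Type) [NormedAddCommGroup V] [NormedSpace ℝ V] [NormedAddCommGroup W]
    [NormedSpace ℝ W] : Prop :=
  ∃ (J : V →L[ℝ] W) (Q : W →L[ℝ] V), ‖J‖ ≤ c ∧ ‖Q‖ ≤ d ∧ ∀ v, Q (J v) = v

/-- `M` is `η s`-dense in the ball with centre `c` and radius `s`. -/
def Dn {X : Type} [NormedAddCommGroup X] (M : Set X) (η : ℝ) (c : X) (s : ℝ) : Prop :=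
  0 < s ∧ ∀ y, ‖y - c‖ ≤ s → ∃ m ∈ M, ‖m - y‖ ≤ η * s

open Classical in
/-- Glueing of functions `F t` on the balls with centres `c t` and radii `2 * s t`. -/
noncomputable def gl {X T : Type} [NormedAddCommGroup X] (c : T → X) (s : T → ℝ)
    (F : T → X → ℝ) (x : X) : ℝ :=
  if h : ∃ t, ‖x - c t‖ < 2 * s t then F h.choose x else 0

/-- The scale. -/
noncomputable def lam {I : Type} (s : I × ℕ → ℝ) (t : I × ℕ) : ℝ := s t / ((t.2 : ℝ) + 1)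

/-- The piece with index `t`. -/
noncomputable def pc {X I : Type} [NormedAddCommGroup X] [NormedSpace ℝ X] (c : I × ℕ → X)
    (s : I × ℕ → ℝ) (h : I → Lip0 X 0) (t : I × ℕ) (x : X) : ℝ :=
  lam s t * (h t.1).fn (psi ((t.2 : ℝ) + 1) ((lam s t)⁻¹ • (x - c t)))

open Classical in
/-- The approximations of the left inverse. -/
noncomputable def qa {X M I : Type} [NormedAddCommGroup X] [NormedSpace ℝ X] [MetricSpace M]
    {o : M} (c : I × ℕ → X) (s : I × ℕ → ℝ) (π : I × ℕ → X → M) (g : Lip0 M o) (i : I) (x : X)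
    (n : ℕ) : ℝ :=
  if ‖x‖ ≤ (n : ℝ) then
    (lam s (i, n))⁻¹ * (g.fn (π (i, n) (c (i, n) + lam s (i, n) • x)) -
      g.fn (π (i, n) (c (i, n))))
  else 0

/-- The finite subset of `M` with base point `o` given by `S`. -/
def Fs {M A : Type} (m : A → M) (o : M) (S : Finset A) : Set M := insert o (m '' (S : Set A))

/-! ### Part 1: the decomposition method for `ℓ_∞`-sums -/

def S_congr : Prop := ∀ (I J V W : Type) [NormedAddCommGroup V] [NormedSpace ℝ V]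
  [NormedAddCommGroup W] [NormedSpace ℝ W] (_ : I ≃ J) (_ : V ≃L[ℝ] W),
  Nonempty (Li I V ≃L[ℝ] Li J W)

def S_prod : Prop := ∀ (I V W : Type) [NormedAddCommGroup V] [NormedSpace ℝ V]
  [NormedAddCommGroup W] [NormedSpace ℝ W], Nonempty (Li I (V × W) ≃L[ℝ] (Li I V × Li I W))

def S_add : Prop := ∀ (I V : Type) [NormedAddCommGroup V] [NormedSpace ℝ V]
  (_ : I ≃ Unit ⊕ I), Nonempty (Li I V ≃L[ℝ] (V × Li I V))

def S_curry : Prop := ∀ (I J V : Type) [NormedAddCommGroup V] [NormedSpace ℝ V],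
  Nonempty (Li (I × J) V ≃L[ℝ] Li I (Li J V))

def S_card : Prop := ∀ (I : Type) [Infinite I], Nonempty (I ≃ Unit ⊕ I) ∧ Nonempty (I ≃ I × I) ∧
  Nonempty (I × ℕ ≃ I) ∧ Nonempty (Finset (ℕ × (ℕ × I)) ≃ I)

def S_pelc : Prop := ∀ (I V Y : Type) [Infinite I] [NormedAddCommGroup V] [NormedSpace ℝ V]
  [NormedAddCommGroup Y] [NormedSpace ℝ Y], Cp (Li I Y) V → Cp V (Li I Y) →
  Nonempty (V ≃L[ℝ] Li I Y)

/-! ### Part 2: non-porous sets -/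

def S_np : Prop := ∀ (X : Type) [NormedAddCommGroup X] [NormedSpace ℝ X] [Nontrivial X]
  (M : Set X), ¬ Porous M → ∀ η : ℝ, 0 < η → ∃ (c : X) (s : ℝ), Dn M η c s

def S_sel : Prop := ∀ (X : Type) [NormedAddCommGroup X] [NormedSpace ℝ X] [Nontrivial X]
  (M : Set X), (∀ η : ℝ, 0 < η → ∃ (c : X) (s : ℝ), Dn M η c s) → ∀ η : ℕ → ℝ, (∀ n, 0 < η n) →
  ∃ (c : ℕ → X) (s : ℕ → ℝ), (∀ n, Dn M (η n) (c n) (s n)) ∧
    ∀ i j, i ≠ j → 4 * (s i + s j) ≤ ‖c i - c j‖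

/-! ### Part 3: the operators attached to a family of separated balls -/

def S_gl : Prop := ∀ (X T : Type) [NormedAddCommGroup X] [NormedSpace ℝ X] (c : T → X)
  (s : T → ℝ), (∀ t, 0 < s t) → (∀ t t', t ≠ t' → 2 * (s t + s t') ≤ ‖c t - c t'‖) →
  (∀ (F : T → X → ℝ) t x, ‖x - c t‖ < 2 * s t → gl c s F x = F t x) ∧
  ∀ (F : T → X → ℝ) (K : ℝ), 0 ≤ K → (∀ t x, 2 * s t ≤ ‖x - c t‖ → F t x = 0) →
    (∀ t x y, |F t x - F t y| ≤ K * ‖x - y‖) → ∀ x y, |gl c s F x - gl c s F y| ≤ 2 * K * ‖x - y‖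

def S_J : Prop := ∀ (X M I : Type) [NormedAddCommGroup X] [NormedSpace ℝ X] [MetricSpace M]
  (ι : M → X) (o : M) (c : I × ℕ → X) (s : I × ℕ → ℝ), Isometry ι → (∀ t, 0 < s t) →
  (∀ t t', t ≠ t' → 2 * (s t + s t') ≤ ‖c t - c t'‖) →
  ∃ J : Li I (Lip0 X 0) →L[ℝ] Lip0 M o, ∀ h m,
    (J h).fn m = gl c s (pc c s (fun i => h i)) (ι m) - gl c s (pc c s (fun i => h i)) (ι o)

def S_Q : Prop := ∀ (X M I : Type) [NormedAddCommGroup X] [NormedSpace ℝ X] [MetricSpace M]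
  (ι : M → X) (o : M) (c : I × ℕ → X) (s : I × ℕ → ℝ) (π : I × ℕ → X → M) (U : Ultrafilter ℕ),
  (U : Filter ℕ) ≤ Filter.atTop → Isometry ι → (∀ t, 0 < s t) →
  (∀ i n y, ‖y - c (i, n)‖ ≤ s (i, n) →
    ‖ι (π (i, n) y) - y‖ ≤ s (i, n) / ((n : ℝ) + 1) ^ 2) →
  ∃ Q : Lip0 M o →L[ℝ] Li I (Lip0 X 0), ∀ g i x, (Q g i).fn x = ulim U (qa c s π g i x)

def S_QJ : Prop := ∀ (X M I : Type) [NormedAddCommGroup X] [NormedSpace ℝ X] [MetricSpace M]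
  (ι : M → X) (o : M) (c : I × ℕ → X) (s : I × ℕ → ℝ) (π : I × ℕ → X → M) (U : Ultrafilter ℕ)
  (h : Li I (Lip0 X 0)) (g : Lip0 M o) (i : I) (x : X),
  (U : Filter ℕ) ≤ Filter.atTop → Isometry ι → (∀ t, 0 < s t) →
  (∀ t t', t ≠ t' → 2 * (s t + s t') ≤ ‖c t - c t'‖) →
  (∀ i n y, ‖y - c (i, n)‖ ≤ s (i, n) →
    ‖ι (π (i, n) y) - y‖ ≤ s (i, n) / ((n : ℝ) + 1) ^ 2) →
  (∀ m, g.fn m = gl c s (pc c s (fun i => h i)) (ι m) - gl c s (pc c s (fun i => h i)) (ι o)) →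
  ulim U (qa c s π g i x) = (h i).fn x

def S_op : Prop := ∀ (X M I : Type) [NormedAddCommGroup X] [NormedSpace ℝ X] [MetricSpace M]
  (ι : M → X) (o : M) (c : I × ℕ → X) (s : I × ℕ → ℝ), Isometry ι → (∀ t, 0 < s t) →
  (∀ t t', t ≠ t' → 2 * (s t + s t') ≤ ‖c t - c t'‖) →
  (∀ i n y, ‖y - c (i, n)‖ ≤ s (i, n) → ∃ m : M, ‖ι m - y‖ ≤ s (i, n) / ((n : ℝ) + 1) ^ 2) →
  Cp (Li I (Lip0 X 0)) (Lip0 M o)

/-! ### Part 4: finite metric spaces -/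

def S_facE : Prop := ∀ (X E : Type) [NormedAddCommGroup X] [NormedSpace ℝ X] [Nontrivial X]
  [NormedAddCommGroup E] [NormedSpace ℝ E] (q : X →ₗ[ℝ] E) (a b : ℝ), 0 ≤ a → 0 ≤ b →
  (∀ x, ‖q x‖ ≤ a * ‖x‖) → (∀ v, ∃ w, q w = v ∧ ‖w‖ ≤ b * ‖v‖) →
  Fac (18 * a) (2 * b) (Lip0 E 0) (Lip0 X 0)

def S_quot : Prop := ∀ (X F : Type) [NormedAddCommGroup X] [NormedSpace ℝ X] [MetricSpace F]
  [Finite F] (o : F) (C : ℝ), 0 ≤ C → (∀ n, L1Data X C n) →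
  ∃ q : X →ₗ[ℝ] (Lip0 F o →L[ℝ] ℝ), (∀ x, ‖q x‖ ≤ C * ‖x‖) ∧
    ∀ v, ∃ w, q w = v ∧ ‖w‖ ≤ C * ‖v‖

def S_ev : Prop := ∀ (F : Type) [MetricSpace F] (o : F),
  Fac 1 1 (Lip0 F o) (Lip0 (Lip0 F o →L[ℝ] ℝ) 0)

def S_fin : Prop := ∀ (X F : Type) [NormedAddCommGroup X] [NormedSpace ℝ X] [Nontrivial X]
  [MetricSpace F] [Finite F] (o : F) (C : ℝ), 0 ≤ C → (∀ n, L1Data X C n) →
  Fac (18 * C) (2 * C) (Lip0 F o) (Lip0 X 0)

/-! ### Part 5: from finite sets to arbitrary sets -/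

def S_loc : Prop := ∀ (M A W : Type) [MetricSpace M] [NormedAddCommGroup W] [NormedSpace ℝ W]
  (o : M) (m : A → M) (a b : ℝ), DenseRange m →
  (∀ S : Finset A, Fac a b (Lip0 (Fs m o S) ⟨o, Set.mem_insert _ _⟩) W) →
  Cp (Lip0 M o) (Li (Finset A) W)

def S_sep : Prop := ∀ (X : Type) [NormedAddCommGroup X] [NormedSpace ℝ X] [Nontrivial X],
  ∃ (I : Type) (c : I → X) (D : ℕ × I → X), Infinite I ∧ (∀ i j, i ≠ j → 1 ≤ ‖c i - c j‖) ∧
    DenseRange D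

def S_dense : Prop := ∀ (X M A : Type) [MetricSpace X] [MetricSpace M] [Nonempty M] (ι : M → X)
  (D : A → X), Isometry ι → DenseRange D → ∃ m : ℕ × A → M, DenseRange m

def S_ex : Prop := ∀ (Γ : Type) [Infinite Γ], UnifL1 (lp (fun _ : Γ => ℝ) 1)

end Pool.Agent.NH32.LP
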