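import Pool.Agent.NH32.LP.Defs

/-!
# Lipschitz spaces over non-porous sets: the local criterion, statements
-/

set_option autoImplicit false

namespace Pool.Agent.NH32.LP

open Pool.Agent.H266R3.LF Pool.Agent.NH62.Lip Pool.Agent.H266R3.BN
open scoped ENNReal

/-- Sets containing a ball are not porous. -/
def S_ball : Prop := ∀ (X : Type) [NormedAddCommGroup X] [NormedSpace ℝ X] [Nontrivial X]
  (M : Set X) (p : X) (r : ℝ), 0 < r → Metric.closedBall p r ⊆ M → ¬ Porous M

/-- If `Lip_0(M) = Lip_0(X)` for all non-porous `M`, then the Lipschitz spaces of the finite subsets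
of `X` factor uniformly through `Lip_0(X)`. -/
def S_crit : Prop := ∀ (X : Type) [NormedAddCommGroup X] [NormedSpace ℝ X] [Nontrivial X],
  (∀ (M : Set X) (o : M), ¬ Porous M → Nonempty (Lip0 M o ≃L[ℝ] Lip0 X 0)) →
  ∃ C : ℝ, ∀ (F : Set X) (o : F), F.Finite → Fac C C (Lip0 F o) (Lip0 X 0)

/-- `UnifL1` passes to spaces containing a complemented copy. -/
def S_inh : Prop := ∀ (X Y : Type) [NormedAddCommGroup X] [NormedSpace ℝ X]
  [NormedAddCommGroup Y] [NormedSpace ℝ Y], Cp Y X → UnifL1 Y → UnifL1 X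

end Pool.Agent.NH32.LP
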