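import Pool.Agent.NH32.LP.Defs

/-!
# LP-1: `ℓ_∞`-sums, congruence and products (helper17)
-/

set_option autoImplicit false

namespace Pool.Agent.NH32.LP

open Pool.Agent.H266R3.LF Pool.Agent.NH62.Lip Pool.Agent.H266R3.BN
open scoped ENNReal

namespace J1H17

/-- a bounded family as an element of the `ℓ_∞`-sum -/
noncomputable def mk {I Y : Type} [NormedAddCommGroup Y] (f : I → Y) (C : ℝ)
    (h : ∀ i, ‖f i‖ ≤ C) : Li I Y :=
  ⟨f, memℓp_infty ⟨C, by rintro _ ⟨i, rfl⟩; exact h i⟩⟩

theorem mk_apply {I Y : Type} [NormedAddCommGroup Y] (f : I → Y) (C : ℝ)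
    (h : ∀ i, ‖f i‖ ≤ C) (i : I) : mk f C h i = f i := rfl

theorem norm_mk_le {I Y : Type} [NormedAddCommGroup Y] (f : I → Y) (C : ℝ)
    (h : ∀ i, ‖f i‖ ≤ C) (hC : 0 ≤ C) : ‖mk f C h‖ ≤ C :=
  lp.norm_le_of_forall_le hC h

theorem li_ext {I Y : Type} [NormedAddCommGroup Y] {f g : Li I Y} (h : ∀ i, f i = g i) : f = g :=
  Subtype.ext (funext h)

theorem norm_apply_le {I Y : Type} [NormedAddCommGroup Y] (f : Li I Y) (i : I) : ‖f i‖ ≤ ‖f‖ :=
  lp.norm_apply_le_norm ENNReal.top_ne_zero f i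

end J1H17

open J1H17

theorem congr_ok : S_congr := by
  intro I J V W _ _ _ _ e L
  have h1 : ∀ (f : Li I V) (j : J), ‖L (f (e.symm j))‖ ≤ ‖(L : V →L[ℝ] W)‖ * ‖f‖ := fun f j =>
    ((L : V →L[ℝ] W).le_opNorm _).trans
      (mul_le_mul_of_nonneg_left (norm_apply_le f _) (norm_nonneg _))
  have h2 : ∀ (g : Li J W) (i : I), ‖L.symm (g (e i))‖ ≤ ‖(L.symm : W →L[ℝ] V)‖ * ‖g‖ := fun g i =>
    ((L.symm : W →L[ℝ] V).le_opNorm _).trans
      (mul_le_mul_of_nonneg_left (norm_apply_le g _) (norm_nonneg _))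
  exact ⟨LinearEquiv.toContinuousLinearEquivOfBounds
    { toFun := fun f => mk (fun j => L (f (e.symm j))) _ (h1 f)
      invFun := fun g => mk (fun i => L.symm (g (e i))) _ (h2 g)
      map_add' := fun f g => li_ext fun j => by
        change L ((f + g) (e.symm j)) = L (f (e.symm j)) + L (g (e.symm j))
        rw [lp.coeFn_add, Pi.add_apply, map_add]
      map_smul' := fun r f => li_ext fun j => by
        change L ((r • f) (e.symm j)) = r • L (f (e.symm j))
        rw [lp.coeFn_smul, Pi.smul_apply, map_smul]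
      left_inv := fun f => li_ext fun i => by
        change L.symm (L (f (e.symm (e i)))) = f i
        rw [L.symm_apply_apply, e.symm_apply_apply]
      right_inv := fun g => li_ext fun j => by
        change L (L.symm (g (e (e.symm j)))) = g j
        rw [L.apply_symm_apply, e.apply_symm_apply] } _ _
    (fun f => norm_mk_le _ _ (h1 f) (by positivity))
    (fun g => norm_mk_le _ _ (h2 g) (by positivity))⟩

theorem prod_ok : S_prod := by
  intro I V W _ _ _ _
  have h1 : ∀ (f : Li I (V × W)) (i : I), ‖(f i).1‖ ≤ ‖f‖ := fun f i =>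
    (norm_fst_le (f i)).trans (norm_apply_le f i)
  have h2 : ∀ (f : Li I (V × W)) (i : I), ‖(f i).2‖ ≤ ‖f‖ := fun f i =>
    (norm_snd_le (f i)).trans (norm_apply_le f i)
  have h3 : ∀ (p : Li I V × Li I W) (i : I), ‖((p.1 i, p.2 i) : V × W)‖ ≤ ‖p‖ := fun p i =>
    max_le ((norm_apply_le p.1 i).trans (norm_fst_le p)) ((norm_apply_le p.2 i).trans (norm_snd_le p))
  exact ⟨LinearEquiv.toContinuousLinearEquivOfBounds
    { toFun := fun f => (mk (fun i => (f i).1) _ (h1 f), mk (fun i => (f i).2) _ (h2 f))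
      invFun := fun p => mk (fun i => ((p.1 i, p.2 i) : V × W)) _ (h3 p)
      map_add' := fun f g => Prod.ext (li_ext fun i => rfl) (li_ext fun i => rfl)
      map_smul' := fun r f => Prod.ext (li_ext fun i => rfl) (li_ext fun i => rfl)
      left_inv := fun f => li_ext fun i => rfl
      right_inv := fun p => Prod.ext (li_ext fun i => rfl) (li_ext fun i => rfl) } 1 1
    (fun f => by
      rw [one_mul]
      exact max_le (norm_mk_le _ _ (h1 f) (norm_nonneg _)) (norm_mk_le _ _ (h2 f) (norm_nonneg _)))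
    (fun p => by
      rw [one_mul]
      exact norm_mk_le _ _ (h3 p) (norm_nonneg _))⟩

end Pool.Agent.NH32.LP
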