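import Pool.Agent.NH32.LP.Defs

/-!
# LP-10: from finite sets to arbitrary sets (by helper80)
-/

set_option autoImplicit false

open Filter Topology

namespace Pool.Agent.NH32.LP

open Pool.Agent.H266R3.LF Pool.Agent.NH62.Lip Pool.Agent.H266R3.BN
open scoped ENNReal

noncomputable section

namespace J10

variable {M A W : Type} [MetricSpace M] [NormedAddCommGroup W] [NormedSpace ℝ W]

/-- base point of the finite set -/
abbrev bp (m : A → M) (o : M) (S : Finset A) : Fs m o S := ⟨o, Set.mem_insert _ _⟩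

theorem exists_near (m : A → M) (o : M) (S : Finset A) (z : M) :
    ∃ p : Fs m o S, ∀ q : Fs m o S, dist z p.1 ≤ dist z q.1 := by
  have hf : (Fs m o S).Finite := (S.finite_toSet.image m).insert o
  obtain ⟨p, hp, h⟩ := Set.exists_min_image (Fs m o S) (fun x => dist z x) hf
    ⟨o, Set.mem_insert _ _⟩
  exact ⟨⟨p, hp⟩, fun q => h q.1 q.2⟩

/-- nearest point -/
def np (m : A → M) (o : M) (S : Finset A) (z : M) : Fs m o S := (exists_near m o S z).choose

theorem np_le (m : A → M) (o : M) (S : Finset A) (z : M) (q : Fs m o S) :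
    dist z (np m o S z).1 ≤ dist z q.1 := (exists_near m o S z).choose_spec q

theorem np_tendsto (m : A → M) (o : M) (hm : DenseRange m) (z : M) :
    Tendsto (fun S : Finset A => dist z (np m o S z).1) atTop (𝓝 0) := by
  classical
  rw [Metric.tendsto_atTop]
  intro ε hε
  obtain ⟨α, hα⟩ := hm.exists_dist_lt z hε
  refine ⟨{α}, fun S hS => ?_⟩
  rw [Real.dist_eq, sub_zero, abs_of_nonneg dist_nonneg]
  refine (np_le m o S z ⟨m α, ?_⟩).trans_lt hα
  exact Set.mem_insert_of_mem _ ⟨α, Finset.mem_coe.2 (hS (Finset.mem_singleton_self α)), rfl⟩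

theorem np_base (m : A → M) (o : M) (S : Finset A) : np m o S o = bp m o S := by
  have h := np_le m o S o (bp m o S)
  have h1 : dist o (bp m o S).1 = 0 := dist_self o
  rw [h1] at h
  have h2 : o = (np m o S o).1 := dist_eq_zero.1 (le_antisymm h dist_nonneg)
  exact Subtype.ext h2.symm

theorem np_bp (m : A → M) (o : M) (S : Finset A) (z : M) :
    dist (np m o S z) (bp m o S) ≤ 2 * dist z o := by
  have h1 : dist (np m o S z) (bp m o S) ≤ dist (np m o S z).1 z + dist z o :=
    dist_triangle (np m o S z).1 z o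
  have h2 : dist z (np m o S z).1 ≤ dist z o := np_le m o S z (bp m o S)
  rw [dist_comm] at h2
  linarith

theorem np_np (m : A → M) (o : M) (S : Finset A) (z w : M) :
    dist (np m o S z) (np m o S w) ≤
      dist z w + (dist z (np m o S z).1 + dist w (np m o S w).1) := by
  have h1 : dist (np m o S z) (np m o S w) ≤ dist (np m o S z).1 z + dist z w +
      dist w (np m o S w).1 := dist_triangle4 (np m o S z).1 z w (np m o S w).1
  rw [dist_comm _ z] at h1
  linarith

/-- restriction -/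
def rs (m : A → M) (o : M) (S : Finset A) (f : Lip0 M o) : Lip0 (Fs m o S) (bp m o S) :=
  Lip0.mk (fun x => f.fn x.1) f.fn_base ‖f‖ (norm_nonneg _) (fun x y => f.abs_sub_le x.1 y.1)

theorem rs_norm (m : A → M) (o : M) (S : Finset A) (f : Lip0 M o) : ‖rs m o S f‖ ≤ ‖f‖ :=
  Lip0.norm_le' _ (norm_nonneg _) (fun x y => f.abs_sub_le x.1 y.1)

theorem rs_add (m : A → M) (o : M) (S : Finset A) (f g : Lip0 M o) :
    rs m o S (f + g) = rs m o S f + rs m o S g := Lip0.ext fun _ => rfl

theorem rs_smul (m : A → M) (o : M) (S : Finset A) (c : ℝ) (f : Lip0 M o) :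
    rs m o S (c • f) = c • rs m o S f := Lip0.ext fun _ => rfl

theorem JL_bound (m : A → M) (o : M) {a : ℝ}
    (J : ∀ S : Finset A, Lip0 (Fs m o S) (bp m o S) →L[ℝ] W) (hJ : ∀ S, ‖J S‖ ≤ a)
    (f : Lip0 M o) (S : Finset A) : ‖J S (rs m o S f)‖ ≤ a * ‖f‖ := by
  have h0 : 0 ≤ a := (norm_nonneg _).trans (hJ S)
  calc ‖J S (rs m o S f)‖ ≤ ‖J S‖ * ‖rs m o S f‖ := (J S).le_opNorm _
    _ ≤ a * ‖f‖ := mul_le_mul (hJ S) (rs_norm m o S f) (norm_nonneg _) h0

/-- the embedding -/
def JL (m : A → M) (o : M) {a : ℝ}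
    (J : ∀ S : Finset A, Lip0 (Fs m o S) (bp m o S) →L[ℝ] W) (hJ : ∀ S, ‖J S‖ ≤ a) :
    Lip0 M o →L[ℝ] Li (Finset A) W :=
  LinearMap.mkContinuous
    { toFun := fun f => ⟨fun S => J S (rs m o S f), memℓp_infty ⟨a * ‖f‖, by
        rintro _ ⟨S, rfl⟩
        exact JL_bound m o J hJ f S⟩⟩
      map_add' := fun f g => by
        apply Subtype.ext
        funext S
        change J S (rs m o S (f + g)) = J S (rs m o S f) + J S (rs m o S g)
        rw [rs_add, map_add]
      map_smul' := fun c f => by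
        apply Subtype.ext
        funext S
        change J S (rs m o S (c • f)) = c • J S (rs m o S f)
        rw [rs_smul, map_smul] } a (fun f => by
      have h0 : 0 ≤ a := (norm_nonneg _).trans (hJ ∅)
      exact lp.norm_le_of_forall_le (mul_nonneg h0 (norm_nonneg _))
        (fun S => JL_bound m o J hJ f S))

theorem JL_apply (m : A → M) (o : M) {a : ℝ}
    (J : ∀ S : Finset A, Lip0 (Fs m o S) (bp m o S) →L[ℝ] W) (hJ : ∀ S, ‖J S‖ ≤ a)
    (f : Lip0 M o) (S : Finset A) : (JL m o J hJ f : Finset A → W) S = J S (rs m o S f) := rfl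

section Q

variable (m : A → M) (o : M) (b : ℝ)
  (Q : ∀ S : Finset A, W →L[ℝ] Lip0 (Fs m o S) (bp m o S)) (U : Ultrafilter (Finset A))

/-- the values of the left inverse -/
def qv (g : Li (Finset A) W) (z : M) : ℝ := ulim U (fun S => (Q S (g S)).fn (np m o S z))

variable {b}

theorem Q_norm (hQ : ∀ S, ‖Q S‖ ≤ b) (g : Li (Finset A) W) (S : Finset A) :
    ‖Q S (g S)‖ ≤ b * ‖g‖ := by
  have h0 : 0 ≤ b := (norm_nonneg _).trans (hQ S)
  calc ‖Q S (g S)‖ ≤ ‖Q S‖ * ‖g S‖ := (Q S).le_opNorm _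
    _ ≤ b * ‖g‖ := mul_le_mul (hQ S) (lp.norm_apply_le_norm (by simp) g S) (norm_nonneg _) h0

theorem qv_bdd (hQ : ∀ S, ‖Q S‖ ≤ b) (g : Li (Finset A) W) (z : M) :
    Gardner.Bdd (fun S => (Q S (g S)).fn (np m o S z)) := by
  refine ⟨b * ‖g‖ * (2 * dist z o), fun S => ?_⟩
  have h0 : 0 ≤ b := (norm_nonneg _).trans (hQ S)
  calc |(Q S (g S)).fn (np m o S z)| ≤ ‖Q S (g S)‖ * dist (np m o S z) (bp m o S) :=
        Lip0.abs_fn_le _ _
    _ ≤ b * ‖g‖ * (2 * dist z o) :=
        mul_le_mul (Q_norm m o Q hQ g S) (np_bp m o S z) dist_nonneg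
          (mul_nonneg h0 (norm_nonneg _))

theorem qv_lip (hm : DenseRange m) (hU : (U : Filter (Finset A)) ≤ atTop)
    (hQ : ∀ S, ‖Q S‖ ≤ b) (g : Li (Finset A) W) (z w : M) :
    |qv m o Q U g z - qv m o Q U g w| ≤ b * ‖g‖ * dist z w := by
  have h1 := ((tendsto_ulim U (qv_bdd m o Q hQ g z)).sub
    (tendsto_ulim U (qv_bdd m o Q hQ g w))).abs
  have h2 : Tendsto (fun S : Finset A => b * ‖g‖ * (dist z w +
      (dist z (np m o S z).1 + dist w (np m o S w).1))) U (𝓝 (b * ‖g‖ * (dist z w + (0 + 0)))) :=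
    ((((np_tendsto m o hm z).mono_left hU).add
      ((np_tendsto m o hm w).mono_left hU)).const_add _).const_mul _
  rw [add_zero, add_zero] at h2
  refine le_of_tendsto_of_tendsto h1 h2 (Eventually.of_forall fun S => ?_)
  have h0 : 0 ≤ b := (norm_nonneg _).trans (hQ S)
  calc |(Q S (g S)).fn (np m o S z) - (Q S (g S)).fn (np m o S w)|
      ≤ ‖Q S (g S)‖ * dist (np m o S z) (np m o S w) := Lip0.abs_sub_le _ _ _
    _ ≤ _ := mul_le_mul (Q_norm m o Q hQ g S) (np_np m o S z w) dist_nonneg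
          (mul_nonneg h0 (norm_nonneg _))

theorem qv_base (g : Li (Finset A) W) : qv m o Q U g o = 0 := by
  unfold qv
  have h : (fun S => (Q S (g S)).fn (np m o S o)) = fun _ => (0 : ℝ) := by
    funext S
    rw [np_base, Lip0.fn_base]
  rw [h, ulim_zero]

/-- the left inverse -/
def QL (hm : DenseRange m) (hU : (U : Filter (Finset A)) ≤ atTop) (hQ : ∀ S, ‖Q S‖ ≤ b) :
    Li (Finset A) W →L[ℝ] Lip0 M o :=
  LinearMap.mkContinuous
    { toFun := fun g => Lip0.mk (qv m o Q U g) (qv_base m o Q U g) (b * ‖g‖)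
        (mul_nonneg ((norm_nonneg _).trans (hQ ∅)) (norm_nonneg _)) (qv_lip m o Q U hm hU hQ g)
      map_add' := fun g h => by
        apply Lip0.ext
        intro z
        change qv m o Q U (g + h) z = qv m o Q U g z + qv m o Q U h z
        unfold qv
        rw [← ulim_add U (qv_bdd m o Q hQ g z) (qv_bdd m o Q hQ h z)]
        congr 1
        funext S
        rw [lp.coeFn_add, Pi.add_apply, map_add, Lip0.fn_add]
      map_smul' := fun c g => by
        apply Lip0.ext
        intro z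
        change qv m o Q U (c • g) z = c * qv m o Q U g z
        unfold qv
        rw [← ulim_smul U (qv_bdd m o Q hQ g z) c]
        congr 1
        funext S
        rw [lp.coeFn_smul, Pi.smul_apply, map_smul, Lip0.fn_smul] } b (fun g =>
      Lip0.norm_le' _ (mul_nonneg ((norm_nonneg _).trans (hQ ∅)) (norm_nonneg _))
        (qv_lip m o Q U hm hU hQ g))

theorem QL_apply (hm : DenseRange m) (hU : (U : Filter (Finset A)) ≤ atTop)
    (hQ : ∀ S, ‖Q S‖ ≤ b) (g : Li (Finset A) W) (z : M) :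
    (QL m o Q U hm hU hQ g).fn z = qv m o Q U g z := rfl

end Q

end J10

open J10 in
theorem loc_ok : S_loc := by
  classical
  intro M A W _ _ _ o m a b hm hfac
  choose J Q hJ hQ hQJ using hfac
  have hU : ((Ultrafilter.of (atTop : Filter (Finset A)) : Ultrafilter (Finset A)) :
      Filter (Finset A)) ≤ atTop := Ultrafilter.of_le _
  refine ⟨JL m o J hJ, QL m o Q (Ultrafilter.of atTop) hm hU hQ, fun f => ?_⟩
  apply Lip0.ext
  intro z
  rw [QL_apply]
  unfold qv
  apply ulim_eq
  have h1 : ∀ S : Finset A, (Q S ((JL m o J hJ f : Finset A → W) S)).fn (np m o S z) =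
      f.fn (np m o S z).1 := by
    intro S
    rw [JL_apply]
    have := hQJ S (rs m o S f)
    exact congrArg (fun v : Lip0 (Fs m o S) (bp m o S) => v.fn (np m o S z)) this
  simp only [h1]
  rw [tendsto_iff_dist_tendsto_zero]
  have h2 : Tendsto (fun S : Finset A => ‖f‖ * dist z (np m o S z).1)
      ((Ultrafilter.of (atTop : Filter (Finset A)) : Ultrafilter (Finset A)) :
        Filter (Finset A)) (𝓝 (‖f‖ * 0)) :=
    ((np_tendsto m o hm z).mono_left hU).const_mul _
  rw [mul_zero] at h2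
  refine squeeze_zero (fun _ => dist_nonneg) (fun S => ?_) h2
  rw [Real.dist_eq, dist_comm z]
  exact f.abs_sub_le _ _

end

end Pool.Agent.NH32.LP
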