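import Pool.Agent.NH32.LP.Defs

/-!
# Separated sets and dense sets
-/

set_option autoImplicit false

namespace Pool.Agent.NH32.LP

namespace JEleven

/-- A maximal `1`-separated set. -/
theorem exists_sep (X : Type) [NormedAddCommGroup X] :
    ∃ S : Set X, (∀ x ∈ S, ∀ y ∈ S, x ≠ y → 1 ≤ ‖x - y‖) ∧ ∀ x, ∃ y ∈ S, ‖x - y‖ < 1 := by
  obtain ⟨S, hS⟩ := zorn_subset {S : Set X | ∀ x ∈ S, ∀ y ∈ S, x ≠ y → 1 ≤ ‖x - y‖} (by
    intro c hc hchain
    refine ⟨⋃₀ c, ?_, fun s hs => Set.subset_sUnion_of_mem hs⟩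
    rintro x ⟨s, hs, hx⟩ y ⟨t, ht, hy⟩ hxy
    rcases hchain.total hs ht with h | h
    · exact hc ht x (h hx) y hy hxy
    · exact hc hs x hx y (h hy) hxy)
  have hS1 : ∀ x ∈ S, ∀ y ∈ S, x ≠ y → 1 ≤ ‖x - y‖ := hS.prop
  refine ⟨S, hS1, fun x => ?_⟩
  by_contra hcon
  push Not at hcon
  have h1 : insert x S ∈ {S : Set X | ∀ x ∈ S, ∀ y ∈ S, x ≠ y → 1 ≤ ‖x - y‖} := by
    rintro a (rfl | ha) b (rfl | hb) hab
    · exact absurd rfl hab
    · exact hcon b hb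
    · rw [norm_sub_rev]; exact hcon a ha
    · exact hS1 a ha b hb hab
  have h2 : x ∈ S := hS.le_of_ge h1 (Set.subset_insert x S) (Set.mem_insert x S)
  have h3 := hcon x h2
  rw [sub_self, norm_zero] at h3
  linarith

end JEleven

open JEleven

theorem sep_ok : S_sep := by
  intro X _ _ _
  obtain ⟨S, hS1, hS2⟩ := exists_sep X
  refine ⟨S, fun i => (i : X), fun p => ((p.1 : ℝ) + 1)⁻¹ • (p.2 : X), ?_, ?_, ?_⟩
  · by_contra hfin
    rw [not_infinite_iff_finite] at hfin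
    have := Fintype.ofFinite S
    obtain ⟨x, hx⟩ := NormedSpace.exists_lt_norm ℝ X (∑ i : S, ‖(i : X)‖ + 1)
    obtain ⟨y, hy, hxy⟩ := hS2 x
    have h1 : ‖y‖ ≤ ∑ i : S, ‖(i : X)‖ :=
      Finset.single_le_sum (f := fun i : S => ‖(i : X)‖) (fun i _ => norm_nonneg _)
        (Finset.mem_univ (⟨y, hy⟩ : S))
    have h2 : ‖x‖ ≤ ‖x - y‖ + ‖y‖ := by
      calc ‖x‖ = ‖(x - y) + y‖ := by rw [sub_add_cancel]
        _ ≤ _ := norm_add_le _ _
    linarith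
  · intro i j hij
    exact hS1 i i.2 j j.2 (fun h => hij (Subtype.ext h))
  · rw [Metric.denseRange_iff]
    intro x r hr
    obtain ⟨n, hn⟩ := exists_nat_one_div_lt hr
    have hn0 : (0 : ℝ) < (n : ℝ) + 1 := by positivity
    obtain ⟨y, hy, hxy⟩ := hS2 (((n : ℝ) + 1) • x)
    refine ⟨(n, ⟨y, hy⟩), ?_⟩
    rw [dist_eq_norm]
    have h1 : x - ((n : ℝ) + 1)⁻¹ • y = ((n : ℝ) + 1)⁻¹ • (((n : ℝ) + 1) • x - y) := by
      rw [smul_sub, smul_smul, inv_mul_cancel₀ hn0.ne', one_smul]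
    show ‖x - ((n : ℝ) + 1)⁻¹ • y‖ < r
    rw [h1, norm_smul, Real.norm_of_nonneg (inv_nonneg.mpr hn0.le)]
    calc ((n : ℝ) + 1)⁻¹ * ‖((n : ℝ) + 1) • x - y‖ ≤ ((n : ℝ) + 1)⁻¹ * 1 :=
          mul_le_mul_of_nonneg_left hxy.le (inv_nonneg.mpr hn0.le)
      _ = 1 / ((n : ℝ) + 1) := by rw [mul_one, one_div]
      _ < r := hn

open Classical in
theorem dense_ok : S_dense := by
  intro X M A _ _ _ ι D hι hD
  refine ⟨fun p => if h : ∃ m : M, dist (ι m) (D p.2) < 1 / ((p.1 : ℝ) + 1) then h.choose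
    else Classical.arbitrary M, ?_⟩
  rw [Metric.denseRange_iff]
  intro x r hr
  obtain ⟨n, hn⟩ := exists_nat_one_div_lt (half_pos hr)
  have hn0 : (0 : ℝ) < 1 / ((n : ℝ) + 1) := by positivity
  rw [Metric.denseRange_iff] at hD
  obtain ⟨a, ha⟩ := hD (ι x) _ hn0
  have h : ∃ m : M, dist (ι m) (D a) < 1 / ((n : ℝ) + 1) := ⟨x, ha⟩
  refine ⟨(n, a), ?_⟩
  show dist x (if h : ∃ m : M, dist (ι m) (D a) < 1 / ((n : ℝ) + 1) then h.choose
    else Classical.arbitrary M) < r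
  rw [dif_pos h, ← hι.dist_eq]
  have h1 := h.choose_spec
  calc dist (ι x) (ι h.choose) ≤ dist (ι x) (D a) + dist (D a) (ι h.choose) := dist_triangle _ _ _
    _ < r / 2 + r / 2 := by rw [dist_comm (D a)]; linarith
    _ = r := by ring

end Pool.Agent.NH32.LP
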