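import Pool.Agent.NH32.LP.Defs

/-!
# LP-12: `ℓ_1(Γ)` contains uniformly complemented `ℓ_1^n`'s (helper48)
-/

set_option autoImplicit false

namespace Pool.Agent.NH32.LP

namespace J12

/-- the coordinate functional -/
noncomputable def co {Γ : Type} (g : Γ) : lp (fun _ : Γ => ℝ) 1 →L[ℝ] ℝ :=
  LinearMap.mkContinuous
    { toFun := fun x => x g
      map_add' := fun x z => by rw [lp.coeFn_add, Pi.add_apply]
      map_smul' := fun c x => by rw [lp.coeFn_smul, Pi.smul_apply, RingHom.id_apply] } 1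
    (fun x => by
      rw [one_mul]
      exact lp.norm_apply_le_norm one_ne_zero x g)

theorem co_apply {Γ : Type} (g : Γ) (x : lp (fun _ : Γ => ℝ) 1) : co g x = x g := rfl

theorem sum_le {Γ : Type} (s : Finset Γ) (x : lp (fun _ : Γ => ℝ) 1) : ∑ g ∈ s, |x g| ≤ ‖x‖ := by
  have h := lp.hasSum_norm (p := 1) (by norm_num) x
  simp only [ENNReal.toReal_one, Real.rpow_one] at h
  exact sum_le_hasSum s (fun _ _ => abs_nonneg _) h

end J12

theorem ex_ok : S_ex := by
  classical
  intro Γ _
  refine ⟨1, fun n => ?_⟩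
  obtain ⟨g⟩ : Nonempty (Fin n ↪ Γ) := ⟨(Fin.valEmbedding).trans (Infinite.natEmbedding Γ)⟩
  refine ⟨fun j => lp.single 1 (g j) (1 : ℝ), fun i => J12.co (g i), ?_, ?_, ?_⟩
  · intro i j
    rw [J12.co_apply, lp.single_apply, Pi.single_apply]
    simp [g.injective.eq_iff]
  · intro j
    rw [lp.norm_single one_pos, norm_one]
  · intro x
    rw [one_mul]
    have h := J12.sum_le (Finset.univ.map g) x
    rw [Finset.sum_map] at h
    exact h

end Pool.Agent.NH32.LP
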