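import Pool.Agent.NH32.LP.Defs2

/-!
# Lipschitz spaces over non-porous sets: the local criterion (LP-13)
-/

set_option autoImplicit false

namespace Pool.Agent.NH32.LP

open Pool.Agent.H266R3.LF Pool.Agent.NH62.Lip Pool.Agent.H266R3.BN
open scoped ENNReal

theorem ball_ok : S_ball := by
  intro X _ _ _ M p r hr hM hP
  obtain ⟨l, hl, h⟩ := hP
  obtain ⟨e, he⟩ := exists_norm_eq X hr.le
  have hd : ENNReal.ofReal r ≤ Metric.ediam (Set.univ : Set X) := by
    have h1 := Metric.edist_le_ediam_of_mem (Set.mem_univ e) (Set.mem_univ (0 : X))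
    rwa [edist_dist, dist_zero_right, he] at h1
  obtain ⟨x, hx⟩ := h p r hr hd
  have h2 : x ∈ Metric.closedBall x (l * r) := Metric.mem_closedBall_self (by positivity)
  exact (hx h2).2 (hM (hx h2).1)

namespace J13

variable {X : Type} [NormedAddCommGroup X] [NormedSpace ℝ X]

open Classical in
/-- the representative in `F` -/
noncomputable def rep (F : Set X) (o : F) (c : X) (lam : ℝ) (x : X) : F :=
  if h : (o : X) + lam⁻¹ • (x - c) ∈ F then ⟨_, h⟩ else o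

theorem rep_eq (F : Set X) (o : F) (c : X) (lam : ℝ) (hlam : 0 < lam) (p : F) :
    rep F o c lam (c + lam • ((p : X) - o)) = p := by
  have e : (o : X) + lam⁻¹ • (c + lam • ((p : X) - o) - c) = p := by
    rw [add_sub_cancel_left, smul_smul, inv_mul_cancel₀ hlam.ne', one_smul]
    abel
  unfold rep
  split_ifs with h
  · exact Subtype.ext e
  · exact absurd (by rw [e]; exact p.2) h

theorem part (F : Set X) (o : F) (M : Set X) (z : M) (c : X) (lam : ℝ) (hlam : 0 < lam)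
    (hb : ∀ p ∈ F, lam * ‖p - o‖ ≤ 1) (hin : ∀ p ∈ F, c + lam • (p - o) ∈ M)
    (hex : ∀ x ∈ M, ‖x - c‖ ≤ 1 → ∃ p ∈ F, x = c + lam • (p - o))
    (hsep : ∀ x ∈ M, ∀ y ∈ M, ‖x - c‖ ≤ 1 → ¬ ‖y - c‖ ≤ 1 → 1 ≤ ‖x - y‖)
    (hz : ¬ ‖(z : X) - c‖ ≤ 1) : Fac 1 1 (Lip0 F o) (Lip0 M z) := by
  classical
  -- the values
  set jf : Lip0 F o → M → ℝ := fun f x =>
    if ‖(x : X) - c‖ ≤ 1 then lam * f.fn (rep F o c lam x) else 0 with hjf
  have hin' : ∀ (f : Lip0 F o) (x : M) (p : F), (x : X) = c + lam • ((p : X) - o) →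
      ‖(x : X) - c‖ ≤ 1 → jf f x = lam * f.fn p := by
    intro f x p hx hx1
    simp only [hjf]
    rw [if_pos hx1, hx, rep_eq F o c lam hlam p]
  have hout : ∀ (f : Lip0 F o) (x : M), ¬ ‖(x : X) - c‖ ≤ 1 → jf f x = 0 :=
    fun f x hx => if_neg hx
  have hmix : ∀ (f : Lip0 F o) (x y : M), ‖(x : X) - c‖ ≤ 1 → ¬ ‖(y : X) - c‖ ≤ 1 →
      |jf f x - jf f y| ≤ ‖f‖ * ‖(x : X) - y‖ := by
    intro f x y hx hy
    obtain ⟨p, hp, hxp⟩ := hex x x.2 hx
    rw [hin' f x ⟨p, hp⟩ hxp hx, hout f y hy, sub_zero, abs_mul, abs_of_pos hlam]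
    have h1 := f.abs_fn_le ⟨p, hp⟩
    rw [Subtype.dist_eq, dist_eq_norm] at h1
    have h2 := hsep x x.2 y y.2 hx hy
    calc lam * |f.fn ⟨p, hp⟩| ≤ lam * (‖f‖ * ‖p - o‖) := mul_le_mul_of_nonneg_left h1 hlam.le
      _ = ‖f‖ * (lam * ‖p - o‖) := by ring
      _ ≤ ‖f‖ * 1 := mul_le_mul_of_nonneg_left (hb p hp) (norm_nonneg _)
      _ ≤ ‖f‖ * ‖(x : X) - y‖ := mul_le_mul_of_nonneg_left h2 (norm_nonneg _)
  have hL : ∀ (f : Lip0 F o) (x y : M), |jf f x - jf f y| ≤ ‖f‖ * dist x y := by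
    intro f x y
    rw [Subtype.dist_eq, dist_eq_norm]
    by_cases hx : ‖(x : X) - c‖ ≤ 1 <;> by_cases hy : ‖(y : X) - c‖ ≤ 1
    · obtain ⟨p, hp, hxp⟩ := hex x x.2 hx
      obtain ⟨q, hq, hyq⟩ := hex y y.2 hy
      rw [hin' f x ⟨p, hp⟩ hxp hx, hin' f y ⟨q, hq⟩ hyq hy, ← mul_sub, abs_mul, abs_of_pos hlam]
      have h1 := f.abs_sub_le ⟨p, hp⟩ ⟨q, hq⟩
      rw [Subtype.dist_eq, dist_eq_norm] at h1
      have e : (x : X) - y = lam • (p - q) := by
        rw [hxp, hyq]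
        simp only [smul_sub]
        abel
      rw [e, norm_smul, Real.norm_eq_abs, abs_of_pos hlam]
      calc lam * |f.fn ⟨p, hp⟩ - f.fn ⟨q, hq⟩| ≤ lam * (‖f‖ * ‖p - q‖) :=
            mul_le_mul_of_nonneg_left h1 hlam.le
        _ = _ := by ring
    · exact hmix f x y hx hy
    · rw [abs_sub_comm, norm_sub_rev]
      exact hmix f y x hy hx
    · rw [hout f x hx, hout f y hy, sub_zero, abs_zero]
      positivity
  let J : Lip0 F o →ₗ[ℝ] Lip0 M z :=
    { toFun := fun f => Lip0.mk (jf f) (hout f z hz) ‖f‖ (norm_nonneg f) (hL f)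
      map_add' := by
        intro f g
        apply Lip0.ext
        intro x
        simp only [Lip0.fn_mk, Lip0.fn_add, hjf]
        split_ifs
        · ring
        · ring
      map_smul' := by
        intro r f
        apply Lip0.ext
        intro x
        simp only [Lip0.fn_mk, Lip0.fn_smul, hjf, RingHom.id_apply]
        split_ifs
        · ring
        · ring }
  -- the left inverse
  set pt : F → M := fun p => ⟨c + lam • ((p : X) - o), hin p p.2⟩ with hpt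
  have hpd : ∀ p q : F, dist (pt p) (pt q) = lam * dist p q := by
    intro p q
    rw [Subtype.dist_eq, Subtype.dist_eq, dist_eq_norm, dist_eq_norm]
    simp only [hpt]
    have e : c + lam • ((p : X) - o) - (c + lam • ((q : X) - o)) = lam • ((p : X) - q) := by
      simp only [smul_sub]
      abel
    rw [e, norm_smul, Real.norm_eq_abs, abs_of_pos hlam]
  have hQ : ∀ (g : Lip0 M z) (p q : F),
      |lam⁻¹ * (g.fn (pt p) - g.fn (pt o)) - lam⁻¹ * (g.fn (pt q) - g.fn (pt o))| ≤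
        ‖g‖ * dist p q := by
    intro g p q
    have e : lam⁻¹ * (g.fn (pt p) - g.fn (pt o)) - lam⁻¹ * (g.fn (pt q) - g.fn (pt o)) =
        lam⁻¹ * (g.fn (pt p) - g.fn (pt q)) := by ring
    have hli : 0 < lam⁻¹ := inv_pos.2 hlam
    rw [e, abs_mul, abs_of_pos hli]
    have h1 := g.abs_sub_le (pt p) (pt q)
    rw [hpd] at h1
    calc lam⁻¹ * |g.fn (pt p) - g.fn (pt q)| ≤ lam⁻¹ * (‖g‖ * (lam * dist p q)) :=
          mul_le_mul_of_nonneg_left h1 hli.le
      _ = (lam⁻¹ * lam) * (‖g‖ * dist p q) := by ring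
      _ = _ := by rw [inv_mul_cancel₀ hlam.ne', one_mul]
  let Q : Lip0 M z →ₗ[ℝ] Lip0 F o :=
    { toFun := fun g => Lip0.mk (fun p => lam⁻¹ * (g.fn (pt p) - g.fn (pt o)))
        (by rw [sub_self, mul_zero]) ‖g‖ (norm_nonneg g) (hQ g)
      map_add' := by
        intro f g
        apply Lip0.ext
        intro x
        simp only [Lip0.fn_mk, Lip0.fn_add]
        ring
      map_smul' := by
        intro r f
        apply Lip0.ext
        intro x
        simp only [Lip0.fn_mk, Lip0.fn_smul, RingHom.id_apply]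
        ring }
  refine ⟨J.mkContinuous 1 fun f => ?_, Q.mkContinuous 1 fun g => ?_,
    LinearMap.mkContinuous_norm_le _ zero_le_one _, LinearMap.mkContinuous_norm_le _ zero_le_one _,
    fun f => ?_⟩
  · rw [one_mul]
    exact Lip0.norm_le' _ (norm_nonneg f) (hL f)
  · rw [one_mul]
    exact Lip0.norm_le' _ (norm_nonneg g) (hQ g)
  · apply Lip0.ext
    intro p
    have hpc : ∀ p : F, ‖((pt p : M) : X) - c‖ ≤ 1 := by
      intro p
      simp only [hpt]
      rw [add_sub_cancel_left, norm_smul, Real.norm_eq_abs, abs_of_pos hlam]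
      exact hb p p.2
    show lam⁻¹ * (jf f (pt p) - jf f (pt o)) = f.fn p
    rw [hin' f (pt p) p rfl (hpc p), hin' f (pt o) o rfl (hpc o), f.fn_base, mul_zero, sub_zero,
      ← mul_assoc, inv_mul_cancel₀ hlam.ne', one_mul]

end J13

open J13 in
theorem crit_of (h : S_ball) : S_crit := by
  intro X _ _ _ hX
  by_contra hcon
  push Not at hcon
  choose F o hF hFac using fun n : ℕ => hcon (n : ℝ)
  have hlam : ∀ n : ℕ, ∃ lam : ℝ, 0 < lam ∧ ∀ p ∈ F n, lam * ‖p - o n‖ ≤ 1 := by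
    intro n
    obtain ⟨K, hK⟩ := ((hF n).image (fun p : X => ‖p - o n‖)).bddAbove
    refine ⟨(|K| + 1)⁻¹, by positivity, fun p hp => ?_⟩
    have h1 : ‖p - o n‖ ≤ K := hK ⟨p, hp, rfl⟩
    have h2 : ‖p - o n‖ ≤ |K| + 1 := by linarith [le_abs_self K]
    calc (|K| + 1)⁻¹ * ‖p - o n‖ ≤ (|K| + 1)⁻¹ * (|K| + 1) :=
          mul_le_mul_of_nonneg_left h2 (by positivity)
      _ = 1 := inv_mul_cancel₀ (by positivity)
  choose lam hlam0 hlam1 using hlam
  obtain ⟨e, he⟩ := exists_norm_eq X (zero_le_one : (0 : ℝ) ≤ 1)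
  set c : ℕ → X := fun n => ((10 : ℝ) * n + 10) • e with hc
  have hcn : ∀ n, ‖c n‖ = 10 * n + 10 := by
    intro n
    simp only [hc]
    rw [norm_smul, he, mul_one, Real.norm_eq_abs, abs_of_nonneg (by positivity)]
  have hcc : ∀ m n, m ≠ n → 10 ≤ ‖c m - c n‖ := by
    intro m n hmn
    have e1 : c m - c n = ((10 : ℝ) * (m - n)) • e := by
      simp only [hc]
      rw [← sub_smul]
      congr 1
      ring
    rw [e1, norm_smul, he, mul_one, Real.norm_eq_abs, abs_mul, abs_of_pos (by norm_num : (0:ℝ) < 10)]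
    have h1 : (1 : ℝ) ≤ |(m : ℝ) - n| := by
      have : (1 : ℤ) ≤ |(m : ℤ) - n| := Int.one_le_abs (by omega)
      exact_mod_cast this
    linarith
  set M : Set X := Metric.closedBall 0 1 ∪ ⋃ n, {x | ∃ p ∈ F n, x = c n + lam n • (p - o n)} with hM
  have h0 : (0 : X) ∈ M := Or.inl (Metric.mem_closedBall_self zero_le_one)
  have hnear : ∀ n, ∀ x, (∃ p ∈ F n, x = c n + lam n • (p - o n)) → ‖x - c n‖ ≤ 1 := by
    rintro n x ⟨p, hp, rfl⟩
    rw [add_sub_cancel_left, norm_smul, Real.norm_eq_abs, abs_of_pos (hlam0 n)]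
    exact hlam1 n p hp
  -- a point of `M` is in the `n`-th part or far from `c n`
  have hfar : ∀ n, ∀ x ∈ M, (∃ p ∈ F n, x = c n + lam n • (p - o n)) ∨ 9 ≤ ‖x - c n‖ := by
    intro n x hx
    rcases hx with hx | hx
    · right
      rw [mem_closedBall_zero_iff] at hx
      have h1 : ‖c n‖ ≤ ‖x‖ + ‖x - c n‖ := by
        have := norm_sub_le x (x - c n)
        rwa [sub_sub_cancel] at this
      rw [hcn] at h1
      have : (0 : ℝ) ≤ n := Nat.cast_nonneg n
      linarith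
    · rw [Set.mem_iUnion] at hx
      obtain ⟨m, hm⟩ := hx
      by_cases hmn : m = n
      · subst hmn
        exact Or.inl hm
      · right
        have h1 := hnear m x hm
        have h2 := hcc m n hmn
        have h3 : ‖c m - c n‖ ≤ ‖x - c m‖ + ‖x - c n‖ := by
          have := norm_sub_le (x - c n) (x - c m)
          rw [sub_sub_sub_cancel_left] at this
          linarith
        linarith
  have hnp : ¬ Porous M := h X M 0 1 one_pos Set.subset_union_left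
  obtain ⟨T⟩ := hX M ⟨0, h0⟩ hnp
  obtain ⟨n, hn⟩ := exists_nat_ge (max ‖(T : Lip0 M ⟨0, h0⟩ →L[ℝ] Lip0 X 0)‖
    ‖(T.symm : Lip0 X 0 →L[ℝ] Lip0 M ⟨0, h0⟩)‖)
  have hn1 := (le_max_left _ _).trans hn
  have hn2 := (le_max_right _ _).trans hn
  have hpart : Fac 1 1 (Lip0 (F n) (o n)) (Lip0 M ⟨0, h0⟩) := by
    refine part (F n) (o n) M ⟨0, h0⟩ (c n) (lam n) (hlam0 n) (hlam1 n) ?_ ?_ ?_ ?_
    · intro p hp
      exact Or.inr (Set.mem_iUnion.2 ⟨n, p, hp, rfl⟩)
    · intro x hx hx1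
      rcases hfar n x hx with h' | h'
      · exact h'
      · linarith
    · intro x hx y hy hx1 hy1
      rcases hfar n y hy with h' | h'
      · exact absurd (hnear n y h') hy1
      · have h3 : ‖y - c n‖ ≤ ‖x - y‖ + ‖x - c n‖ := by
          have := norm_sub_le (x - c n) (x - y)
          rw [sub_sub_sub_cancel_left] at this
          linarith
        linarith
    · show ¬ ‖(0 : X) - c n‖ ≤ 1
      rw [zero_sub, norm_neg, hcn]
      have : (0 : ℝ) ≤ n := Nat.cast_nonneg n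
      linarith
  obtain ⟨J, Q, hJ, hQ, hQJ⟩ := hpart
  refine hFac n ⟨(T : Lip0 M ⟨0, h0⟩ →L[ℝ] Lip0 X 0).comp J,
    Q.comp (T.symm : Lip0 X 0 →L[ℝ] Lip0 M ⟨0, h0⟩), ?_, ?_, fun v => ?_⟩
  · calc _ ≤ ‖(T : Lip0 M ⟨0, h0⟩ →L[ℝ] Lip0 X 0)‖ * ‖J‖ := ContinuousLinearMap.opNorm_comp_le _ _
      _ ≤ ‖(T : Lip0 M ⟨0, h0⟩ →L[ℝ] Lip0 X 0)‖ * 1 :=
          mul_le_mul_of_nonneg_left hJ (norm_nonneg _)
      _ ≤ n := by rw [mul_one]; exact hn1
  · calc _ ≤ ‖Q‖ * ‖(T.symm : Lip0 X 0 →L[ℝ] Lip0 M ⟨0, h0⟩)‖ :=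
          ContinuousLinearMap.opNorm_comp_le _ _
      _ ≤ 1 * ‖(T.symm : Lip0 X 0 →L[ℝ] Lip0 M ⟨0, h0⟩)‖ :=
          mul_le_mul_of_nonneg_right hQ (norm_nonneg _)
      _ ≤ n := by rw [one_mul]; exact hn2
  · show Q (T.symm (T (J v))) = v
    rw [T.symm_apply_apply, hQJ]

end Pool.Agent.NH32.LP
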