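import Pool.Agent.NH32.LP.Defs2

/-!
# LP-14: uniformly complemented copies in larger spaces
-/

set_option autoImplicit false

namespace Pool.Agent.NH32.LP

open Pool.Agent.H266R3.LF Pool.Agent.NH62.Lip Pool.Agent.H266R3.BN

theorem inh_ok : S_inh := by
  intro X Y _ _ _ _ hYX hY
  obtain ⟨J, Q, hJQ⟩ := hYX
  obtain ⟨C, hC⟩ := hY
  refine ⟨max C 0 * (‖J‖ + ‖Q‖), fun n => ?_⟩
  obtain ⟨w, φ, h1, h2, h3⟩ := hC n
  have hC0 : C ≤ max C 0 := le_max_left _ _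
  have hm : 0 ≤ max C 0 := le_max_right _ _
  refine ⟨fun i => J (w i), fun i => (φ i).comp Q, ?_, ?_, ?_⟩
  · intro i j
    rw [ContinuousLinearMap.comp_apply, hJQ]
    exact h1 i j
  · intro j
    calc ‖J (w j)‖ ≤ ‖J‖ * ‖w j‖ := J.le_opNorm _
      _ ≤ ‖J‖ * max C 0 := mul_le_mul_of_nonneg_left ((h2 j).trans hC0) (norm_nonneg _)
      _ ≤ max C 0 * (‖J‖ + ‖Q‖) := by nlinarith [norm_nonneg Q, norm_nonneg J]
  · intro x
    calc ∑ i, |((φ i).comp Q) x| = ∑ i, |φ i (Q x)| := rfl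
      _ ≤ C * ‖Q x‖ := h3 _
      _ ≤ max C 0 * ‖Q x‖ := mul_le_mul_of_nonneg_right hC0 (norm_nonneg _)
      _ ≤ max C 0 * (‖Q‖ * ‖x‖) := mul_le_mul_of_nonneg_left (Q.le_opNorm x) hm
      _ ≤ max C 0 * ((‖J‖ + ‖Q‖) * ‖x‖) := by
          apply mul_le_mul_of_nonneg_left _ hm
          apply mul_le_mul_of_nonneg_right _ (norm_nonneg _)
          linarith [norm_nonneg J]
      _ = max C 0 * (‖J‖ + ‖Q‖) * ‖x‖ := by ring

end Pool.Agent.NH32.LP
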