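import Pool.Agent.NH32.LP.Defs

/-!
# Sums of copies of a Banach space: adding a summand, iterated sums (LP-2)
-/

set_option autoImplicit false

namespace Pool.Agent.NH32.LP

open Pool.Agent.H266R3.LF Pool.Agent.NH62.Lip Pool.Agent.H266R3.BN
open scoped ENNReal

namespace J2

/-- the element given by a bounded family -/
def mkL {I V : Type} [NormedAddCommGroup V] (f : I → V) (C : ℝ) (h : ∀ i, ‖f i‖ ≤ C) : Li I V :=
  ⟨f, memℓp_infty ⟨C, by
    rintro _ ⟨i, rfl⟩
    exact h i⟩⟩

theorem mkL_apply {I V : Type} [NormedAddCommGroup V] (f : I → V) (C : ℝ)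
    (h : ∀ i, ‖f i‖ ≤ C) (i : I) : mkL f C h i = f i := rfl

theorem mkL_norm {I V : Type} [NormedAddCommGroup V] (f : I → V) (C : ℝ)
    (h : ∀ i, ‖f i‖ ≤ C) (hC : 0 ≤ C) : ‖mkL f C h‖ ≤ C :=
  lp.norm_le_of_forall_le hC h

theorem app_le {I V : Type} [NormedAddCommGroup V] (f : Li I V) (i : I) : ‖f i‖ ≤ ‖f‖ :=
  lp.norm_apply_le_norm ENNReal.top_ne_zero f i

end J2

open J2

theorem add_ok : S_add := by
  intro I V _ _ e
  have hb : ∀ (p : V × Li I V) (i : I),
      ‖Sum.elim (fun _ : Unit => p.1) (fun j => p.2 j) (e i)‖ ≤ ‖p‖ := by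
    intro p i
    rcases e i with y | y
    · exact norm_fst_le p
    · exact (app_le p.2 y).trans (norm_snd_le p)
  refine ⟨LinearEquiv.toContinuousLinearEquivOfBounds
    { toFun := fun f => (f (e.symm (Sum.inl ())),
        mkL (fun i => f (e.symm (Sum.inr i))) ‖f‖ (fun i => app_le f _))
      invFun := fun p => mkL (fun i => Sum.elim (fun _ : Unit => p.1) (fun j => p.2 j) (e i)) ‖p‖
        (hb p)
      map_add' := ?_
      map_smul' := ?_
      left_inv := ?_
      right_inv := ?_ } 1 1 ?_ ?_⟩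
  · intro f g
    refine Prod.ext rfl ?_
    ext i
    rfl
  · intro r f
    refine Prod.ext rfl ?_
    ext i
    rfl
  · intro f
    ext i
    simp only [mkL_apply]
    obtain ⟨y, rfl⟩ := e.symm.surjective i
    rcases y with y | y <;> simp
  · intro p
    refine Prod.ext ?_ ?_
    · simp [mkL_apply]
    · ext i
      simp [mkL_apply]
  · intro f
    rw [one_mul]
    refine max_le ?_ ?_
    · exact app_le f _
    · exact mkL_norm _ _ (fun i => app_le f (e.symm (Sum.inr i))) (norm_nonneg f)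
  · intro p
    rw [one_mul]
    exact mkL_norm _ _ (hb p) (norm_nonneg p)

theorem curry_ok : S_curry := by
  intro I J V _ _
  have hb : ∀ (f : Li (I × J) V) (i : I),
      ‖mkL (fun j => f (i, j)) ‖f‖ (fun j => app_le f _)‖ ≤ ‖f‖ :=
    fun f i => mkL_norm _ _ _ (norm_nonneg f)
  have hc : ∀ (g : Li I (Li J V)) (t : I × J), ‖(g t.1 : Li J V) t.2‖ ≤ ‖g‖ :=
    fun g t => (app_le (g t.1) t.2).trans (app_le g t.1)
  refine ⟨LinearEquiv.toContinuousLinearEquivOfBounds
    { toFun := fun f => mkL (fun i => mkL (fun j => f (i, j)) ‖f‖ (fun j => app_le f _)) ‖f‖ (hb f)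
      invFun := fun g => mkL (fun t : I × J => (g t.1 : Li J V) t.2) ‖g‖ (hc g)
      map_add' := ?_
      map_smul' := ?_
      left_inv := ?_
      right_inv := ?_ } 1 1 ?_ ?_⟩
  · intro f g
    ext i j
    rfl
  · intro r f
    ext i j
    rfl
  · intro f
    ext t
    rfl
  · intro g
    ext i j
    rfl
  · intro f
    rw [one_mul]
    exact mkL_norm _ _ (hb f) (norm_nonneg f)
  · intro g
    rw [one_mul]
    exact mkL_norm _ _ (hc g) (norm_nonneg g)

end Pool.Agent.NH32.LP
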