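import Pool.Agent.NH32.LP.Defs

/-!
# LP-3: cardinalities and the decomposition method
-/

set_option autoImplicit false

namespace Pool.Agent.NH32.LP

open Pool.Agent.H266R3.LF Pool.Agent.NH62.Lip Pool.Agent.H266R3.BN
open scoped ENNReal Cardinal

theorem card_ok : S_card := by
  intro I _
  have h0 : ℵ₀ ≤ #I := Cardinal.aleph0_le_mk I
  have h2 : #I * ℵ₀ = #I := Cardinal.mul_aleph0_eq h0
  have h3 : ℵ₀ * #I = #I := Cardinal.aleph0_mul_eq h0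
  refine ⟨Cardinal.eq.1 ?_, Cardinal.eq.1 ?_, Cardinal.eq.1 ?_, Cardinal.eq.1 ?_⟩
  · simp only [Cardinal.mk_sum, Cardinal.lift_id, Cardinal.mk_unit]
    rw [Cardinal.add_eq_right h0 (Cardinal.one_le_aleph0.trans h0)]
  · simp only [Cardinal.mk_prod, Cardinal.lift_id]
    rw [Cardinal.mul_eq_self h0]
  · simp only [Cardinal.mk_prod, Cardinal.lift_id, Cardinal.mk_nat]
    exact h2
  · rw [Cardinal.mk_finset_of_infinite]
    simp only [Cardinal.mk_prod, Cardinal.lift_id, Cardinal.mk_nat]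
    rw [h3, h3]

namespace J3

variable {I X Y B : Type} [NormedAddCommGroup X] [NormedSpace ℝ X] [NormedAddCommGroup Y]
  [NormedSpace ℝ Y] [NormedAddCommGroup B] [NormedSpace ℝ B]

theorem absorb (h1 : S_congr) (h2 : S_prod) (h3 : S_add) (h : I ≃ Unit ⊕ I)
    (hY : Y ≃L[ℝ] Li I Y) (hXB : Y ≃L[ℝ] X × B) : Nonempty (Y ≃L[ℝ] X × Y) := by
  obtain ⟨a1⟩ := h1 I I Y (X × B) (Equiv.refl I) hXB
  obtain ⟨a2⟩ := h2 I X B
  obtain ⟨a3⟩ := h3 I X h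
  have e1 : Y ≃L[ℝ] Li I X × Li I B := (hY.trans a1).trans a2
  have e2 : (Li I X × Li I B) ≃L[ℝ] (X × Li I X) × Li I B :=
    a3.prodCongr (ContinuousLinearEquiv.refl ℝ _)
  have e3 : ((X × Li I X) × Li I B) ≃L[ℝ] X × (Li I X × Li I B) :=
    ContinuousLinearEquiv.prodAssoc ℝ X (Li I X) (Li I B)
  exact ⟨((e1.trans e2).trans e3).trans ((ContinuousLinearEquiv.refl ℝ X).prodCongr e1.symm)⟩

theorem pelczynski (h1 : S_congr) (h2 : S_prod) (h3 : S_add) (h : I ≃ Unit ⊕ I)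
    (hY : Y ≃L[ℝ] Li I Y) (hXY : Cp X Y) (hYX : Cp Y X) : Nonempty (X ≃L[ℝ] Y) := by
  obtain ⟨S, T, hST⟩ := hXY
  obtain ⟨S', T', hST'⟩ := hYX
  have e1 : Y ≃L[ℝ] X × T.ker := ContinuousLinearEquiv.equivOfRightInverse T S hST
  have e2 : X ≃L[ℝ] Y × T'.ker := ContinuousLinearEquiv.equivOfRightInverse T' S' hST'
  obtain ⟨e3⟩ := absorb h1 h2 h3 h hY e1
  obtain ⟨e4⟩ := absorb (X := Y) (B := PUnit) h1 h2 h3 h hY
    (ContinuousLinearEquiv.prodUnique ℝ Y PUnit).symm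
  have e5 : X ≃L[ℝ] (Y × Y) × T'.ker :=
    e2.trans (e4.prodCongr (ContinuousLinearEquiv.refl ℝ _))
  have e6 : X ≃L[ℝ] Y × (Y × T'.ker) :=
    e5.trans (ContinuousLinearEquiv.prodAssoc ℝ Y Y T'.ker)
  have e7 : X ≃L[ℝ] Y × X :=
    e6.trans ((ContinuousLinearEquiv.refl ℝ Y).prodCongr e2.symm)
  exact ⟨(e7.trans (ContinuousLinearEquiv.prodComm ℝ Y X)).trans e3.symm⟩

end J3

theorem pelc_of (h1 : S_congr) (h2 : S_prod) (h3 : S_add) (h4 : S_curry) (h5 : S_card) :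
    S_pelc := by
  intro I V Y _ _ _ _ _ hYV hVY
  obtain ⟨⟨u1⟩, ⟨u2⟩, _, _⟩ := h5 I
  obtain ⟨a1⟩ := h1 I (I × I) Y Y u2 (ContinuousLinearEquiv.refl ℝ Y)
  obtain ⟨a2⟩ := h4 I I Y
  exact J3.pelczynski h1 h2 h3 u1 (a1.trans a2) hVY hYV

end Pool.Agent.NH32.LP
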