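import Pool.Agent.NH32.LP.Defs

/-!
# LP-4 : non-porous sets
-/

set_option autoImplicit false

namespace Pool.Agent.NH32.LP

open Pool.Agent.H266R3.LF Pool.Agent.NH62.Lip Pool.Agent.H266R3.BN

/-- **LP-4**, first part -/
theorem np_ok : S_np := by
  intro X _ _ _ M hM η hη
  unfold Porous at hM
  push Not at hM
  obtain ⟨p, r, hr, -, h⟩ := hM (min (η / 2) (1 / 2)) (lt_min (by linarith) (by norm_num))
  refine ⟨p, r / 2, by linarith, fun y hy => ?_⟩
  have h1 := h y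
  rw [Set.not_subset] at h1
  obtain ⟨m, hm, hm'⟩ := h1
  rw [Metric.mem_closedBall, dist_eq_norm] at hm
  have e1 : min (η / 2) (1 / 2) * r ≤ η / 2 * r :=
    mul_le_mul_of_nonneg_right (min_le_left _ _) hr.le
  have e2 : min (η / 2) (1 / 2) * r ≤ 1 / 2 * r :=
    mul_le_mul_of_nonneg_right (min_le_right _ _) hr.le
  refine ⟨m, ?_, by linarith⟩
  by_contra hmM
  refine hm' ⟨?_, hmM⟩
  rw [Metric.mem_closedBall, dist_eq_norm]
  have e3 : ‖m - p‖ ≤ ‖m - y‖ + ‖y - p‖ := by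
    have := norm_add_le (m - y) (y - p)
    rwa [sub_add_sub_cancel] at this
  linarith

namespace J4Aux

variable {X : Type} [NormedAddCommGroup X]

/-- the balls in the list `L` do not obstruct -/
def Good (M : Set X) (L : List (X × ℝ)) : Prop :=
  ∀ η : ℝ, 0 < η → ∃ (c : X) (s : ℝ), Dn M η c s ∧ ∀ d ∈ L, 4 * (s + d.2) ≤ ‖c - d.1‖

theorem Dn_mono {M : Set X} {η η' : ℝ} {c : X} {s : ℝ} (h : Dn M η c s) (hη : η ≤ η') :
    Dn M η' c s := by
  refine ⟨h.1, fun y hy => ?_⟩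
  obtain ⟨m, hm, hm'⟩ := h.2 y hy
  exact ⟨m, hm, hm'.trans (mul_le_mul_of_nonneg_right hη h.1.le)⟩

/-- the two sub-balls -/
theorem sub_ball {M : Set X} {η : ℝ} {c x : X} {s : ℝ} (h : Dn M (η / 16) c s)
    (hx : ‖x - c‖ ≤ s / 2) : Dn M η x (s / 16) := by
  have hs := h.1
  refine ⟨by linarith, fun y hy => ?_⟩
  have e3 : ‖y - c‖ ≤ ‖y - x‖ + ‖x - c‖ := by
    have := norm_add_le (y - x) (x - c)
    rwa [sub_add_sub_cancel] at this
  obtain ⟨m, hm, hm'⟩ := h.2 y (by linarith)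
  exact ⟨m, hm, by linarith⟩

theorem sub_sep {L : List (X × ℝ)} {c x : X} {s : ℝ} (hs : 0 < s) (hx : ‖x - c‖ ≤ s / 2)
    (h : ∀ d ∈ L, 4 * (s + d.2) ≤ ‖c - d.1‖) : ∀ d ∈ L, 4 * (s / 16 + d.2) ≤ ‖x - d.1‖ := by
  intro d hd
  have h1 := h d hd
  have e3 : ‖c - d.1‖ ≤ ‖c - x‖ + ‖x - d.1‖ := by
    have := norm_add_le (c - x) (x - d.1)
    rwa [sub_add_sub_cancel] at this
  rw [norm_sub_rev c x] at e3
  linarith

theorem Good_step [NormedSpace ℝ X] [Nontrivial X] {M : Set X} {L : List (X × ℝ)} (hL : Good M L) (η : ℝ)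
    (hη : 0 < η) : ∃ b : X × ℝ, Dn M η b.1 b.2 ∧ (∀ d ∈ L, 4 * (b.2 + d.2) ≤ ‖b.1 - d.1‖) ∧
      Good M (b :: L) := by
  obtain ⟨e, he⟩ := exists_norm_eq X (zero_le_one : (0 : ℝ) ≤ 1)
  obtain ⟨c, s, hD, hsep⟩ := hL (η / 16) (by linarith)
  have hs := hD.1
  have n1 : ∀ (a : X) (t : ℝ), 0 < t → ‖(a + (t / 2) • e) - a‖ ≤ t / 2 := by
    intro a t ht
    rw [add_sub_cancel_left, norm_smul, he, Real.norm_eq_abs, abs_of_pos (by linarith), mul_one]
  have n2 : ∀ (a : X) (t : ℝ), 0 < t → ‖(a - (t / 2) • e) - a‖ ≤ t / 2 := by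
    intro a t ht
    rw [sub_sub_cancel_left, norm_neg, norm_smul, he, Real.norm_eq_abs,
      abs_of_pos (by linarith), mul_one]
  have n3 : ∀ (a : X) (t : ℝ), 0 < t → ‖(a + (t / 2) • e) - (a - (t / 2) • e)‖ = t := by
    intro a t ht
    have : (a + (t / 2) • e) - (a - (t / 2) • e) = t • e := by module
    rw [this, norm_smul, he, Real.norm_eq_abs, abs_of_pos ht, mul_one]
  by_contra hcon
  push Not at hcon
  have g1 := hcon (c + (s / 2) • e, s / 16) (sub_ball hD (n1 c s hs)) (sub_sep hs (n1 c s hs) hsep)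
  have g2 := hcon (c - (s / 2) • e, s / 16) (sub_ball hD (n2 c s hs)) (sub_sep hs (n2 c s hs) hsep)
  unfold Good at g1 g2
  push Not at g1 g2
  obtain ⟨η1, hη1, g1⟩ := g1
  obtain ⟨η2, hη2, g2⟩ := g2
  have hmin : 0 < min η1 η2 := lt_min hη1 hη2
  obtain ⟨c1, s1, hD1, hsep1⟩ := hL (min η1 η2 / 16) (by linarith)
  have hs1 := hD1.1
  have key : ∀ y : X, ‖y - c1‖ ≤ s1 / 2 →
      ‖y - (c + (s / 2) • e)‖ < 4 * (s1 / 16 + s / 16) ∧
      ‖y - (c - (s / 2) • e)‖ < 4 * (s1 / 16 + s / 16) := by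
    intro y hy
    have hDy := sub_ball hD1 hy
    have hsy := sub_sep hs1 hy hsep1
    obtain ⟨d, hd, hd'⟩ := g1 y (s1 / 16) (Dn_mono hDy (min_le_left _ _))
    obtain ⟨d2, hd2, hd2'⟩ := g2 y (s1 / 16) (Dn_mono hDy (min_le_right _ _))
    rw [List.mem_cons] at hd hd2
    constructor
    · rcases hd with rfl | hd
      · exact hd'
      · exact absurd (hsy d hd) (not_le.2 hd')
    · rcases hd2 with rfl | hd2
      · exact hd2'
      · exact absurd (hsy d2 hd2) (not_le.2 hd2')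
  obtain ⟨a1, a2⟩ := key _ (n1 c1 s1 hs1)
  obtain ⟨a3, a4⟩ := key _ (n2 c1 s1 hs1)
  have b1 := n3 c s hs
  have b2 := n3 c1 s1 hs1
  have t1 : ‖(c + (s / 2) • e) - (c - (s / 2) • e)‖ ≤
      ‖(c1 + (s1 / 2) • e) - (c + (s / 2) • e)‖ + ‖(c1 + (s1 / 2) • e) - (c - (s / 2) • e)‖ := by
    have := norm_add_le ((c + (s / 2) • e) - (c1 + (s1 / 2) • e))
      ((c1 + (s1 / 2) • e) - (c - (s / 2) • e))
    rwa [sub_add_sub_cancel, norm_sub_rev (c + (s / 2) • e) (c1 + (s1 / 2) • e)] at this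
  have t2 : ‖(c1 + (s1 / 2) • e) - (c1 - (s1 / 2) • e)‖ ≤
      ‖(c1 + (s1 / 2) • e) - (c + (s / 2) • e)‖ + ‖(c1 - (s1 / 2) • e) - (c + (s / 2) • e)‖ := by
    have := norm_add_le ((c1 + (s1 / 2) • e) - (c + (s / 2) • e))
      ((c + (s / 2) • e) - (c1 - (s1 / 2) • e))
    rwa [sub_add_sub_cancel, norm_sub_rev (c + (s / 2) • e)] at this
  linarith

end J4Aux

open J4Aux in
/-- **LP-4**, second part -/
theorem sel_ok : S_sel := by
  intro X _ _ _ M H η hη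
  have h0 : Good M ([] : List (X × ℝ)) := by
    intro ε hε
    obtain ⟨c, s, h⟩ := H ε hε
    exact ⟨c, s, h, fun d hd => by simp at hd⟩
  have step : ∀ (n : ℕ) (L : {L : List (X × ℝ) // Good M L}), ∃ b : X × ℝ, Dn M (η n) b.1 b.2 ∧
      (∀ d ∈ L.1, 4 * (b.2 + d.2) ≤ ‖b.1 - d.1‖) ∧ Good M (b :: L.1) :=
    fun n L => Good_step L.2 (η n) (hη n)
  choose f hf using step
  let seq : ℕ → {L : List (X × ℝ) // Good M L} := fun n =>
    Nat.rec ⟨[], h0⟩ (fun n L => ⟨f n L :: L.1, (hf n L).2.2⟩) n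
  have hseq : ∀ n, (seq (n + 1)).1 = f n (seq n) :: (seq n).1 := fun n => rfl
  have hmem : ∀ i j, i < j → f i (seq i) ∈ (seq j).1 := by
    intro i j
    induction j with
    | zero => intro h; exact absurd h (Nat.not_lt_zero _)
    | succ j ih =>
      intro h
      rw [hseq, List.mem_cons]
      rcases Nat.lt_succ_iff_lt_or_eq.1 h with h1 | h1
      · exact Or.inr (ih h1)
      · subst h1; exact Or.inl rfl
  have hlt : ∀ i j, i < j → 4 * ((f i (seq i)).2 + (f j (seq j)).2) ≤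
      ‖(f i (seq i)).1 - (f j (seq j)).1‖ := by
    intro i j hij
    have h1 := (hf j (seq j)).2.1 _ (hmem i j hij)
    rw [norm_sub_rev]
    linarith
  refine ⟨fun n => (f n (seq n)).1, fun n => (f n (seq n)).2, fun n => (hf n (seq n)).1, ?_⟩
  intro i j hij
  rcases Nat.lt_or_gt_of_ne hij with h | h
  · exact hlt i j h
  · have h1 := hlt j i h
    rw [norm_sub_rev]
    show 4 * ((f i (seq i)).2 + (f j (seq j)).2) ≤ _
    linarith

end Pool.Agent.NH32.LP
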