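import Pool.Agent.NH32.LP.Defs

/-!
# Part LP-5: glueing and the operator `J`
-/

set_option autoImplicit false

namespace Pool.Agent.NH32.LP

open Pool.Agent.H266R3.LF Pool.Agent.NH62.Lip Pool.Agent.H266R3.BN
open scoped ENNReal

namespace J5

section gl

variable {X T : Type} [NormedAddCommGroup X] {c : T → X} {s : T → ℝ}

theorem disj (hc : ∀ t t', t ≠ t' → 2 * (s t + s t') ≤ ‖c t - c t'‖) {t t' : T} {x : X}
    (h : ‖x - c t‖ < 2 * s t) (h' : ‖x - c t'‖ < 2 * s t') : t = t' := by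
  by_contra hne
  have h1 := hc t t' hne
  have h2 : c t - c t' = (x - c t') - (x - c t) := by abel
  rw [h2] at h1
  have h3 := norm_sub_le (x - c t') (x - c t)
  linarith

theorem gl_eq (hc : ∀ t t', t ≠ t' → 2 * (s t + s t') ≤ ‖c t - c t'‖) (F : T → X → ℝ) (t : T)
    (x : X) (h : ‖x - c t‖ < 2 * s t) : gl c s F x = F t x := by
  have he : ∃ t, ‖x - c t‖ < 2 * s t := ⟨t, h⟩
  unfold gl
  rw [dif_pos he, disj hc he.choose_spec h]

theorem gl_out (F : T → X → ℝ) (x : X) (h : ¬ ∃ t, ‖x - c t‖ < 2 * s t) : gl c s F x = 0 := by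
  unfold gl
  rw [dif_neg h]

theorem gl_lip (hc : ∀ t t', t ≠ t' → 2 * (s t + s t') ≤ ‖c t - c t'‖) (F : T → X → ℝ) (K : ℝ)
    (hK : 0 ≤ K) (hF : ∀ t x, 2 * s t ≤ ‖x - c t‖ → F t x = 0)
    (hL : ∀ t x y, |F t x - F t y| ≤ K * ‖x - y‖) (x y : X) :
    |gl c s F x - gl c s F y| ≤ 2 * K * ‖x - y‖ := by
  have hd : 0 ≤ K * ‖x - y‖ := mul_nonneg hK (norm_nonneg _)
  by_cases hx : ∃ t, ‖x - c t‖ < 2 * s t
  · obtain ⟨t, ht⟩ := hx
    rw [gl_eq hc F t x ht]
    by_cases hy : ∃ t, ‖y - c t‖ < 2 * s t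
    · obtain ⟨t', ht'⟩ := hy
      rw [gl_eq hc F t' y ht']
      by_cases hne : t = t'
      · subst hne
        have := hL t x y
        linarith
      · have e1 : F t y = 0 := by
          apply hF
          by_contra hh
          exact hne (disj hc (not_le.1 hh) ht')
        have e2 : F t' x = 0 := by
          apply hF
          by_contra hh
          exact hne (disj hc ht (not_le.1 hh))
        have h1 := hL t x y
        have h2 := hL t' x y
        rw [e1, sub_zero] at h1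
        rw [e2, zero_sub, abs_neg] at h2
        have h3 := abs_sub (F t x) (F t' y)
        linarith
    · rw [gl_out F y hy, sub_zero]
      have e1 : F t y = 0 := by
        apply hF
        by_contra hh
        exact hy ⟨t, not_le.1 hh⟩
      have h1 := hL t x y
      rw [e1, sub_zero] at h1
      linarith
  · rw [gl_out F x hx, zero_sub, abs_neg]
    by_cases hy : ∃ t, ‖y - c t‖ < 2 * s t
    · obtain ⟨t', ht'⟩ := hy
      rw [gl_eq hc F t' y ht']
      have e2 : F t' x = 0 := by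
        apply hF
        by_contra hh
        exact hx ⟨t', not_le.1 hh⟩
      have h2 := hL t' x y
      rw [e2, zero_sub, abs_neg] at h2
      linarith
    · rw [gl_out F y hy, abs_zero]
      linarith

theorem gl_add (F G H : T → X → ℝ) (h : ∀ t x, H t x = F t x + G t x) (x : X) :
    gl c s H x = gl c s F x + gl c s G x := by
  unfold gl
  by_cases hx : ∃ t, ‖x - c t‖ < 2 * s t
  · rw [dif_pos hx, dif_pos hx, dif_pos hx, h]
  · rw [dif_neg hx, dif_neg hx, dif_neg hx, add_zero]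

theorem gl_smul (a : ℝ) (F H : T → X → ℝ) (h : ∀ t x, H t x = a * F t x) (x : X) :
    gl c s H x = a * gl c s F x := by
  unfold gl
  by_cases hx : ∃ t, ‖x - c t‖ < 2 * s t
  · rw [dif_pos hx, dif_pos hx, h]
  · rw [dif_neg hx, dif_neg hx, mul_zero]

end gl

end J5

/-- Part LP-5a. -/
theorem gl_ok : S_gl := by
  intro X T _ _ c s _ hc
  exact ⟨fun F t x h => J5.gl_eq hc F t x h, fun F K hK hF hL x y => J5.gl_lip hc F K hK hF hL x y⟩

namespace J5

section pc

variable {X I : Type} [NormedAddCommGroup X] [NormedSpace ℝ X] {c : I × ℕ → X} {s : I × ℕ → ℝ}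

theorem lam_pos (hs : ∀ t, 0 < s t) (t : I × ℕ) : 0 < lam s t := by
  unfold lam
  have := hs t
  positivity

theorem pc_out (hs : ∀ t, 0 < s t) (h : I → Lip0 X 0) (t : I × ℕ) (x : X)
    (hx : 2 * s t ≤ ‖x - c t‖) : pc c s h t x = 0 := by
  unfold pc
  have hR : (0:ℝ) < (t.2 : ℝ) + 1 := by positivity
  have h1 : 2 * ((t.2 : ℝ) + 1) ≤ ‖(lam s t)⁻¹ • (x - c t)‖ := by
    rw [norm_smul, Real.norm_of_nonneg (inv_nonneg.2 (lam_pos hs t).le)]
    have h2 : (lam s t)⁻¹ * (2 * s t) = 2 * ((t.2 : ℝ) + 1) := by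
      unfold lam
      have := (hs t).ne'
      field_simp
    rw [← h2]
    exact mul_le_mul_of_nonneg_left hx (inv_nonneg.2 (lam_pos hs t).le)
  rw [psi_out hR h1, Lip0.fn_base, mul_zero]

theorem pc_lip (hs : ∀ t, 0 < s t) (h : I → Lip0 X 0) (t : I × ℕ) (x y : X) :
    |pc c s h t x - pc c s h t y| ≤ 3 * ‖h t.1‖ * ‖x - y‖ := by
  unfold pc
  have hR : (0:ℝ) < (t.2 : ℝ) + 1 := by positivity
  have hl := lam_pos hs t
  rw [← mul_sub, abs_mul, abs_of_pos hl]
  have h1 := (h t.1).abs_sub_le (psi ((t.2:ℝ) + 1) ((lam s t)⁻¹ • (x - c t)))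
    (psi ((t.2:ℝ) + 1) ((lam s t)⁻¹ • (y - c t)))
  have h2 : dist (psi ((t.2:ℝ) + 1) ((lam s t)⁻¹ • (x - c t)))
      (psi ((t.2:ℝ) + 1) ((lam s t)⁻¹ • (y - c t))) ≤ 3 * ((lam s t)⁻¹ * ‖x - y‖) := by
    rw [dist_eq_norm]
    refine (psi_lip hR _ _).trans ?_
    rw [← smul_sub, sub_sub_sub_cancel_right, norm_smul,
      Real.norm_of_nonneg (inv_nonneg.2 hl.le)]
  calc _ ≤ lam s t * (‖h t.1‖ * (3 * ((lam s t)⁻¹ * ‖x - y‖))) :=
        mul_le_mul_of_nonneg_left (h1.trans (mul_le_mul_of_nonneg_left h2 (norm_nonneg _))) hl.le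
    _ = 3 * ‖h t.1‖ * ‖x - y‖ := by
        have := hl.ne'
        field_simp

theorem gpc_lip (hs : ∀ t, 0 < s t)
    (hc : ∀ t t', t ≠ t' → 2 * (s t + s t') ≤ ‖c t - c t'‖) (h : Li I (Lip0 X 0)) (x y : X) :
    |gl c s (pc c s (fun i => h i)) x - gl c s (pc c s (fun i => h i)) y| ≤
      6 * ‖h‖ * ‖x - y‖ := by
  have h1 := gl_lip hc (pc c s (fun i => h i)) (3 * ‖h‖) (by positivity)
    (fun t x hx => pc_out hs _ t x hx) (fun t x y => ?_) x y
  · linarith
  · refine (pc_lip hs _ t x y).trans ?_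
    have := lp.norm_apply_le_norm ENNReal.top_ne_zero h t.1
    gcongr

theorem gpc_add (h h' : Li I (Lip0 X 0)) (x : X) :
    gl c s (pc c s (fun i => (h + h') i)) x =
      gl c s (pc c s (fun i => h i)) x + gl c s (pc c s (fun i => h' i)) x := by
  apply gl_add
  intro t x
  have e : (h + h') t.1 = h t.1 + h' t.1 := rfl
  change lam s t * ((h + h') t.1).fn _ = lam s t * (h t.1).fn _ + lam s t * (h' t.1).fn _
  rw [e, Lip0.fn_add, mul_add]

theorem gpc_smul (a : ℝ) (h : Li I (Lip0 X 0)) (x : X) :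
    gl c s (pc c s (fun i => (a • h) i)) x = a * gl c s (pc c s (fun i => h i)) x := by
  apply gl_smul
  intro t x
  have e : (a • h) t.1 = a • h t.1 := rfl
  change lam s t * ((a • h) t.1).fn _ = a * (lam s t * (h t.1).fn _)
  rw [e, Lip0.fn_smul]
  ring

end pc

end J5

/-- Part LP-5b. -/
theorem J_ok : S_J := by
  intro X M I _ _ _ ι o c s hι hs hc
  have hd : ∀ m m', ‖ι m - ι m'‖ = dist m m' := by
    intro m m'
    rw [← dist_eq_norm, hι.dist_eq]
  have hlip : ∀ (h : Li I (Lip0 X 0)) (m m' : M),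
      |(gl c s (pc c s (fun i => h i)) (ι m) - gl c s (pc c s (fun i => h i)) (ι o)) -
        (gl c s (pc c s (fun i => h i)) (ι m') - gl c s (pc c s (fun i => h i)) (ι o))| ≤
        6 * ‖h‖ * dist m m' := by
    intro h m m'
    rw [sub_sub_sub_cancel_right, ← hd]
    exact J5.gpc_lip hs hc h _ _
  let L : Li I (Lip0 X 0) →ₗ[ℝ] Lip0 M o :=
    { toFun := fun h => Lip0.mk
        (fun m => gl c s (pc c s (fun i => h i)) (ι m) - gl c s (pc c s (fun i => h i)) (ι o))
        (sub_self _) (6 * ‖h‖) (by positivity) (hlip h)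
      map_add' := by
        intro h h'
        apply Lip0.ext
        intro m
        rw [Lip0.fn_add, Lip0.fn_mk, Lip0.fn_mk, Lip0.fn_mk, J5.gpc_add, J5.gpc_add]
        ring
      map_smul' := by
        intro a h
        apply Lip0.ext
        intro m
        rw [RingHom.id_apply, Lip0.fn_smul, Lip0.fn_mk, Lip0.fn_mk, J5.gpc_smul, J5.gpc_smul]
        ring }
  refine ⟨L.mkContinuous 6 ?_, ?_⟩
  · intro h
    exact Lip0.norm_le' _ (by positivity) (hlip h)
  · intro h m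
    rfl

end Pool.Agent.NH32.LP
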