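import Pool.Agent.NH32.LP.Defs

/-!
# The left inverse
-/

set_option autoImplicit false

namespace Pool.Agent.NH32.LP

open Pool.Agent.H266R3.LF Pool.Agent.NH62.Lip Pool.Agent.H266R3.BN
open scoped ENNReal
open Filter Topology Gardner

namespace J6P

section

variable {X M I : Type} [NormedAddCommGroup X] [NormedSpace ℝ X] [MetricSpace M]
  {ι : M → X} {o : M} {c : I × ℕ → X} {s : I × ℕ → ℝ} {π : I × ℕ → X → M}

theorem qa_add (g g' : Lip0 M o) (i : I) (x : X) (n : ℕ) :
    qa c s π (g + g') i x n = qa c s π g i x n + qa c s π g' i x n := by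
  unfold qa
  split_ifs
  · rw [Lip0.fn_add, Lip0.fn_add]
    ring
  · rw [add_zero]

theorem qa_smul (a : ℝ) (g : Lip0 M o) (i : I) (x : X) (n : ℕ) :
    qa c s π (a • g) i x n = a * qa c s π g i x n := by
  unfold qa
  split_ifs
  · rw [Lip0.fn_smul, Lip0.fn_smul]
    ring
  · rw [mul_zero]

theorem qa_zero (g : Lip0 M o) (i : I) (n : ℕ) : qa c s π g i (0 : X) n = 0 := by
  unfold qa
  rw [smul_zero, add_zero, sub_self, mul_zero, ite_self]

theorem lam_pos (hs : ∀ t, 0 < s t) (t : I × ℕ) : 0 < lam s t := by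
  unfold lam
  have := hs t
  positivity

theorem in_ball (hs : ∀ t, 0 < s t) (i : I) (n : ℕ) {x : X} (hx : ‖x‖ ≤ n) :
    ‖c (i, n) + lam s (i, n) • x - c (i, n)‖ ≤ s (i, n) := by
  rw [add_sub_cancel_left, norm_smul, Real.norm_eq_abs, abs_of_pos (lam_pos hs _)]
  have h1 : lam s (i, n) * ‖x‖ ≤ lam s (i, n) * ((n : ℝ) + 1) :=
    mul_le_mul_of_nonneg_left (by linarith) (lam_pos hs _).le
  refine h1.trans (le_of_eq ?_)
  unfold lam
  field_simp

theorem key (hι : Isometry ι) (hs : ∀ t, 0 < s t)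
    (hπ : ∀ i n y, ‖y - c (i, n)‖ ≤ s (i, n) →
      ‖ι (π (i, n) y) - y‖ ≤ s (i, n) / ((n : ℝ) + 1) ^ 2)
    (g : Lip0 M o) (i : I) (n : ℕ) {x y : X} (hx : ‖x‖ ≤ n) (hy : ‖y‖ ≤ n) :
    |qa c s π g i x n - qa c s π g i y n| ≤ ‖g‖ * (‖x - y‖ + 2 / ((n : ℝ) + 1)) := by
  have hl := lam_pos hs (i, n)
  have e : qa c s π g i x n - qa c s π g i y n = (lam s (i, n))⁻¹ *
      (g.fn (π (i, n) (c (i, n) + lam s (i, n) • x)) -
        g.fn (π (i, n) (c (i, n) + lam s (i, n) • y))) := by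
    unfold qa
    rw [if_pos hx, if_pos hy]
    ring
  have h1 := g.abs_sub_le (π (i, n) (c (i, n) + lam s (i, n) • x))
    (π (i, n) (c (i, n) + lam s (i, n) • y))
  have h2 : dist (π (i, n) (c (i, n) + lam s (i, n) • x))
      (π (i, n) (c (i, n) + lam s (i, n) • y)) ≤
      lam s (i, n) * ‖x - y‖ + 2 * (s (i, n) / ((n : ℝ) + 1) ^ 2) := by
    rw [← hι.dist_eq, dist_eq_norm]
    have a1 := hπ i n _ (in_ball (c := c) hs i n hx)
    have a2 := hπ i n _ (in_ball (c := c) hs i n hy)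
    have a3 : ι (π (i, n) (c (i, n) + lam s (i, n) • x)) -
        ι (π (i, n) (c (i, n) + lam s (i, n) • y)) =
        lam s (i, n) • (x - y) +
        ((ι (π (i, n) (c (i, n) + lam s (i, n) • x)) - (c (i, n) + lam s (i, n) • x)) -
        (ι (π (i, n) (c (i, n) + lam s (i, n) • y)) - (c (i, n) + lam s (i, n) • y))) := by
      rw [smul_sub]
      abel
    rw [a3]
    refine (norm_add_le _ _).trans (add_le_add ?_ ((norm_sub_le _ _).trans (by linarith)))
    rw [norm_smul, Real.norm_eq_abs, abs_of_pos hl]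
  rw [e, abs_mul, abs_of_pos (inv_pos.2 hl)]
  calc (lam s (i, n))⁻¹ * |g.fn (π (i, n) (c (i, n) + lam s (i, n) • x)) -
        g.fn (π (i, n) (c (i, n) + lam s (i, n) • y))|
      ≤ (lam s (i, n))⁻¹ * (‖g‖ *
        (lam s (i, n) * ‖x - y‖ + 2 * (s (i, n) / ((n : ℝ) + 1) ^ 2))) :=
        mul_le_mul_of_nonneg_left (h1.trans (mul_le_mul_of_nonneg_left h2 (norm_nonneg _)))
          (inv_pos.2 hl).le
    _ = ‖g‖ * (‖x - y‖ + 2 / ((n : ℝ) + 1)) := by
        have h3 : (lam s (i, n))⁻¹ * (s (i, n) / ((n : ℝ) + 1) ^ 2) = 1 / ((n : ℝ) + 1) := by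
          unfold lam
          have := hs (i, n)
          field_simp
        have h4 : (lam s (i, n))⁻¹ * lam s (i, n) = 1 := inv_mul_cancel₀ hl.ne'
        calc _ = ‖g‖ * (((lam s (i, n))⁻¹ * lam s (i, n)) * ‖x - y‖ +
              2 * ((lam s (i, n))⁻¹ * (s (i, n) / ((n : ℝ) + 1) ^ 2))) := by ring
          _ = _ := by
            rw [h3, h4]
            ring

theorem bound (hι : Isometry ι) (hs : ∀ t, 0 < s t)
    (hπ : ∀ i n y, ‖y - c (i, n)‖ ≤ s (i, n) →
      ‖ι (π (i, n) y) - y‖ ≤ s (i, n) / ((n : ℝ) + 1) ^ 2)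
    (g : Lip0 M o) (i : I) (x : X) : Bdd (qa c s π g i x) := by
  refine ⟨‖g‖ * (‖x‖ + 2), fun n => ?_⟩
  by_cases hx : ‖x‖ ≤ n
  · have h1 := key hι hs hπ g i n hx (y := 0) (by rw [norm_zero]; exact Nat.cast_nonneg n)
    rw [qa_zero, sub_zero, sub_zero] at h1
    refine h1.trans (mul_le_mul_of_nonneg_left ?_ (norm_nonneg _))
    have h2 : 2 / ((n : ℝ) + 1) ≤ 2 := div_le_self (by norm_num) (by
      have : (0 : ℝ) ≤ n := Nat.cast_nonneg n
      linarith)
    linarith
  · have : qa c s π g i x n = 0 := by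
      unfold qa
      rw [if_neg hx]
    rw [this, abs_zero]
    have := norm_nonneg x
    have := norm_nonneg g
    positivity

theorem lip {U : Ultrafilter ℕ} (hU : (U : Filter ℕ) ≤ atTop) (hι : Isometry ι)
    (hs : ∀ t, 0 < s t)
    (hπ : ∀ i n y, ‖y - c (i, n)‖ ≤ s (i, n) →
      ‖ι (π (i, n) y) - y‖ ≤ s (i, n) / ((n : ℝ) + 1) ^ 2)
    (g : Lip0 M o) (i : I) (x y : X) :
    |ulim U (qa c s π g i x) - ulim U (qa c s π g i y)| ≤ ‖g‖ * dist x y := by
  have h1 := ((tendsto_ulim U (bound hι hs hπ g i x)).sub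
    (tendsto_ulim U (bound hι hs hπ g i y))).abs
  have h2 : Tendsto (fun n : ℕ => ‖g‖ * (‖x - y‖ + 2 / ((n : ℝ) + 1))) U
      (𝓝 (‖g‖ * (‖x - y‖ + 0))) := by
    refine Tendsto.mono_left ?_ hU
    refine Tendsto.const_mul _ (Tendsto.const_add _ ?_)
    exact tendsto_const_nhds.div_atTop (tendsto_atTop_add_const_right _ _
      tendsto_natCast_atTop_atTop)
  rw [add_zero, ← dist_eq_norm] at h2
  refine le_of_tendsto_of_tendsto h1 h2 ?_
  apply hU
  obtain ⟨N, hN⟩ := exists_nat_ge (max ‖x‖ ‖y‖)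
  filter_upwards [eventually_ge_atTop N] with n hn
  have hn' : (N : ℝ) ≤ n := Nat.cast_le.2 hn
  rw [dist_eq_norm]
  exact key hι hs hπ g i n ((le_max_left _ _).trans (hN.trans hn'))
    ((le_max_right _ _).trans (hN.trans hn'))

end

end J6P

open J6P in
theorem Q_ok : S_Q := by
  intro X M I _ _ _ ι o c s π U hU hι hs hπ
  let T : Lip0 M o → I → Lip0 X 0 := fun g i =>
    Lip0.mk (fun x => ulim U (qa c s π g i x)) (by
      have : qa c s π g i (0 : X) = fun _ => (0 : ℝ) := funext fun n => qa_zero g i n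
      rw [this]
      exact ulim_zero U) ‖g‖ (norm_nonneg _) (lip hU hι hs hπ g i)
  have hT : ∀ g i, ‖T g i‖ ≤ ‖g‖ := fun g i =>
    Lip0.norm_le' _ (norm_nonneg _) (lip hU hι hs hπ g i)
  let L : Lip0 M o →ₗ[ℝ] Li I (Lip0 X 0) :=
    { toFun := fun g => ⟨T g, memℓp_infty ⟨‖g‖, by
        rintro _ ⟨i, rfl⟩
        exact hT g i⟩⟩
      map_add' := fun g g' => by
        apply lp.ext
        funext i
        apply Lip0.ext
        intro x
        show ulim U (qa c s π (g + g') i x) = ulim U (qa c s π g i x) + ulim U (qa c s π g' i x)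
        rw [← ulim_add U (bound hι hs hπ g i x) (bound hι hs hπ g' i x)]
        congr 1
        funext n
        exact qa_add g g' i x n
      map_smul' := fun a g => by
        apply lp.ext
        funext i
        apply Lip0.ext
        intro x
        show ulim U (qa c s π (a • g) i x) = a * ulim U (qa c s π g i x)
        rw [← ulim_smul U (bound hι hs hπ g i x)]
        congr 1
        funext n
        exact qa_smul a g i x n }
  refine ⟨LinearMap.mkContinuous L 1 fun g => ?_, fun g i x => rfl⟩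
  rw [one_mul]
  exact lp.norm_le_of_forall_le (norm_nonneg _) fun i => hT g i

end Pool.Agent.NH32.LP
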