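import Pool.Agent.NH32.LP.Defs

/-!
# Project LP (helper32), part LP-7: the left inverse is a left inverse
Written by helper30.
-/

set_option autoImplicit false

namespace Pool.Agent.NH32.LP

open Pool.Agent.H266R3.LF Pool.Agent.NH62.Lip Pool.Agent.H266R3.BN
open scoped ENNReal
open Filter Topology

namespace J7

/-- the function glued from the pieces, near a centre -/
theorem gl_near {X I : Type} [NormedAddCommGroup X] [NormedSpace ℝ X]
    (h1 : S_gl) (c : I × ℕ → X) (s : I × ℕ → ℝ) (h : I → Lip0 X 0) (hs : ∀ t, 0 < s t)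
    (hsep : ∀ t t', t ≠ t' → 2 * (s t + s t') ≤ ‖c t - c t'‖) (t : I × ℕ) (u x : X) (r : ℝ)
    (hr1 : r ≤ 1) (hx : ‖x‖ + 1 ≤ (t.2 : ℝ) + 1)
    (hu : ‖u - (c t + lam s t • x)‖ ≤ lam s t * r) :
    ∃ w : X, ‖w - x‖ ≤ r ∧ gl c s (pc c s h) u = lam s t * (h t.1).fn w := by
  have hn : (0 : ℝ) < (t.2 : ℝ) + 1 := by positivity
  have hL : 0 < lam s t := div_pos (hs t) hn
  have hLn : lam s t * ((t.2 : ℝ) + 1) = s t := by
    unfold lam
    field_simp
  have e1 : u - c t = (u - (c t + lam s t • x)) + lam s t • x := by abel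
  have hb : ‖u - c t‖ ≤ lam s t * (‖x‖ + 1) := by
    rw [e1]
    refine (norm_add_le _ _).trans ?_
    rw [norm_smul, Real.norm_eq_abs, abs_of_pos hL]
    have : lam s t * r ≤ lam s t * 1 := mul_le_mul_of_nonneg_left hr1 hL.le
    nlinarith
  have hb2 : ‖u - c t‖ ≤ s t := by
    refine hb.trans ?_
    rw [← hLn]
    exact mul_le_mul_of_nonneg_left hx hL.le
  have hb3 : ‖u - c t‖ < 2 * s t := by
    have := hs t
    linarith
  have hw : ‖(lam s t)⁻¹ • (u - c t)‖ ≤ (t.2 : ℝ) + 1 := by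
    rw [norm_smul, norm_inv, Real.norm_eq_abs, abs_of_pos hL, inv_mul_le_iff₀ hL, hLn]
    exact hb2
  refine ⟨(lam s t)⁻¹ • (u - c t), ?_, ?_⟩
  · have e2 : (lam s t)⁻¹ • (u - c t) - x = (lam s t)⁻¹ • (u - (c t + lam s t • x)) := by
      rw [smul_sub, smul_sub, smul_add, smul_smul, inv_mul_cancel₀ hL.ne', one_smul]
      abel
    rw [e2, norm_smul, norm_inv, Real.norm_eq_abs, abs_of_pos hL, inv_mul_le_iff₀ hL]
    exact hu
  · rw [(h1 X (I × ℕ) c s hs hsep).1 (pc c s h) t u hb3]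
    unfold pc
    rw [psi_id hn hw]

end J7

theorem QJ_of (h1 : S_gl) : S_QJ := by
  intro X M I _ _ _ ι o c s π U h g i x hU hι hs hsep hπ hg
  refine ulim_eq U (Tendsto.mono_left ?_ hU)
  rw [tendsto_iff_norm_sub_tendsto_zero]
  have hlim : Tendsto (fun n : ℕ => 2 * ‖h i‖ * (1 / ((n : ℝ) + 1))) atTop (𝓝 0) := by
    have := (tendsto_one_div_add_atTop_nhds_zero_nat (𝕜 := ℝ)).const_mul (2 * ‖h i‖)
    rwa [mul_zero] at this
  refine squeeze_zero' (Eventually.of_forall fun n => norm_nonneg _) ?_ hlim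
  obtain ⟨N, hN⟩ := exists_nat_ge (‖x‖)
  filter_upwards [eventually_ge_atTop N] with n hn
  have hxn : ‖x‖ ≤ (n : ℝ) := hN.trans (by exact_mod_cast hn)
  have hn0 : (0 : ℝ) < (n : ℝ) + 1 := by positivity
  have hL : 0 < lam s (i, n) := div_pos (hs _) hn0
  have hr : (1 : ℝ) / ((n : ℝ) + 1) ≤ 1 := by
    rw [div_le_one hn0]
    have : (0 : ℝ) ≤ n := Nat.cast_nonneg n
    linarith
  have hr0 : (0 : ℝ) ≤ 1 / ((n : ℝ) + 1) := by positivity
  have hLn : lam s (i, n) * ((n : ℝ) + 1) = s (i, n) := by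
    unfold lam
    field_simp
  have hLr : s (i, n) / ((n : ℝ) + 1) ^ 2 = lam s (i, n) * (1 / ((n : ℝ) + 1)) := by
    unfold lam
    field_simp
  have hu := hπ i n (c (i, n) + lam s (i, n) • x) (by
    rw [add_sub_cancel_left, norm_smul, Real.norm_eq_abs, abs_of_pos hL, ← hLn]
    exact mul_le_mul_of_nonneg_left (by linarith) hL.le)
  have hv := hπ i n (c (i, n)) (by rw [sub_self, norm_zero]; exact (hs _).le)
  rw [hLr] at hu hv
  obtain ⟨w, hw, hw'⟩ := J7.gl_near h1 c s (fun i => h i) hs hsep (i, n) _ x _ hr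
    (by change ‖x‖ + 1 ≤ (n : ℝ) + 1; linarith) hu
  obtain ⟨z, hz, hz'⟩ := J7.gl_near h1 c s (fun i => h i) hs hsep (i, n) _ 0 _ hr
    (by change ‖(0 : X)‖ + 1 ≤ (n : ℝ) + 1; rw [norm_zero]; linarith [norm_nonneg x])
    (by rw [smul_zero, add_zero]; exact hv)
  have hq : qa c s π g i x n = (h i).fn w - (h i).fn z := by
    unfold qa
    rw [if_pos hxn, hg, hg, sub_sub_sub_cancel_right, hw', hz', ← mul_sub, ← mul_assoc,
      inv_mul_cancel₀ hL.ne', one_mul]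
  rw [hq, Real.norm_eq_abs]
  have a1 := (h i).abs_sub_le w x
  have a2 := (h i).abs_sub_le z 0
  rw [dist_eq_norm] at a1 a2
  rw [Lip0.fn_base, sub_zero] at a2
  have b1 : ‖h i‖ * ‖w - x‖ ≤ ‖h i‖ * (1 / ((n : ℝ) + 1)) :=
    mul_le_mul_of_nonneg_left hw (norm_nonneg _)
  have b2 : ‖h i‖ * ‖z - 0‖ ≤ ‖h i‖ * (1 / ((n : ℝ) + 1)) :=
    mul_le_mul_of_nonneg_left hz (norm_nonneg _)
  have e : (h i).fn w - (h i).fn z - (h i).fn x = ((h i).fn w - (h i).fn x) - (h i).fn z := by ring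
  rw [e]
  refine (abs_sub _ _).trans ?_
  linarith

theorem op_of (h1 : S_J) (h2 : S_Q) (h3 : S_QJ) : S_op := by
  intro X M I _ _ _ ι o c s hι hs hsep hd
  classical
  have hex : ∀ (t : I × ℕ) (y : X), ∃ m : M, ‖y - c t‖ ≤ s t →
      ‖ι m - y‖ ≤ s t / ((t.2 : ℝ) + 1) ^ 2 := by
    rintro ⟨i, n⟩ y
    by_cases hy : ‖y - c (i, n)‖ ≤ s (i, n)
    · obtain ⟨m, hm⟩ := hd i n y hy
      exact ⟨m, fun _ => hm⟩
    · exact ⟨o, fun h => absurd h hy⟩
  choose π hπ using hex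
  obtain ⟨U, hU⟩ := Ultrafilter.exists_le (atTop : Filter ℕ)
  obtain ⟨J, hJ⟩ := h1 X M I ι o c s hι hs hsep
  obtain ⟨Q, hQ⟩ := h2 X M I ι o c s π U hU hι hs (fun i n y hy => hπ (i, n) y hy)
  refine ⟨J, Q, fun v => ?_⟩
  refine lp.ext (funext fun i => Lip0.ext fun x => ?_)
  rw [hQ]
  exact h3 X M I ι o c s π U v (J v) i x hU hι hs hsep (fun i n y hy => hπ (i, n) y hy)
    fun m => hJ v m

end Pool.Agent.NH32.LP
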