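import Pool.Agent.NH32.LP.Defs

/-!
# LP-8: factorization with norms, evaluation
-/

set_option autoImplicit false
set_option linter.unusedSectionVars false

namespace Pool.Agent.NH32.LP

open Filter Topology Gardner Pool.Agent.H266R3.LF Pool.Agent.NH62.Lip

namespace J8

section final

variable {X : Type} [NormedAddCommGroup X] [NormedSpace ℝ X] {M : Type} [MetricSpace M] {o : M}
  {E : ℕ → Type} [∀ k, NormedAddCommGroup (E k)] [∀ k, NormedSpace ℝ (E k)]

/-- `Pool.Agent.NH62.Lip.factor` with bounds for the norms -/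
theorem factor' [Nontrivial X] (q : ∀ k, X →ₗ[ℝ] E k) {a b α β : ℝ} (ha : 0 ≤ a) (hb0 : 0 ≤ b)
    (hα : 0 ≤ α) (hβ : 0 ≤ β) (hq : ∀ k x, ‖q k x‖ ≤ a * ‖x‖)
    (hb : ∀ k v, ∃ w, q k w = v ∧ ‖w‖ ≤ b * ‖v‖)
    (I : ∀ k, E k → M) (P : ∀ k, M → E k)
    (hI : ∀ k v w, dist (I k v) (I k w) ≤ β * dist v w)
    (hP : ∀ k z w, dist (P k z) (P k w) ≤ α * dist z w)
    (hI0 : ∀ k, I k 0 = o) (hP0 : ∀ k, P k o = 0)
    (hIP : ∀ z, Tendsto (fun k => I k (P k z)) atTop (𝓝 z)) :
    ∃ (J : Lip0 M o →L[ℝ] Lip0 X 0) (Q : Lip0 X 0 →L[ℝ] Lip0 M o), ‖J‖ ≤ 18 * a * β ∧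
      ‖Q‖ ≤ 2 * b * α ∧ ∀ f, Q (J f) = f := by
  obtain ⟨e, he⟩ := exists_norm_eq X (zero_le_one (α := ℝ))
  obtain ⟨U, hU⟩ : ∃ U : Ultrafilter ℕ, (U : Filter ℕ) ≤ atTop :=
    ⟨Ultrafilter.of atTop, Ultrafilter.of_le _⟩
  choose m hm using fun k => exists_lmean (LinearMap.ker (q k))
  obtain ⟨μ, hμ⟩ := exists_lmean X
  choose s hs hsb using hb
  have hb' : ∀ k v, ∃ w, q k w = v ∧ ‖w‖ ≤ b * ‖v‖ := fun k v => ⟨s k v, hs k v, hsb k v⟩
  have hlin1 : ∀ (f : X → ℝ) (g : X → ℝ), (fun x => f x + g x) = fun x => 1 * f x + g x := by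
    intro f g
    funext x
    rw [one_mul]
  have hlin2 : ∀ (c : ℝ) (f : X → ℝ), (fun x => c * f x) = fun x => c * f x + (0 : X → ℝ) x := by
    intro c f
    funext x
    simp
  have hz : IsLip 0 (0 : X → ℝ) := fun x y => by simp
  have hret0 : ∀ z, ret U e q m μ s P (0 : X → ℝ) z = 0 := by
    intro z
    have h1 := ret_lip (U := U) (e := e) (P := P) hm hμ hs hb0 hb' hP hP0 le_rfl hz z o
    have h2 := ret_base (U := U) (e := e) (P := P) hm hμ hs hP0 hz
    rw [h2, sub_zero] at h1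
    have h3 : |ret U e q m μ s P (0 : X → ℝ) z| ≤ 0 := h1.trans (le_of_eq (by ring))
    exact abs_nonpos_iff.1 h3
  let J : Lip0 M o →L[ℝ] Lip0 X 0 := LinearMap.mkContinuous
    { toFun := fun f => Lip0.mk (fun x => f.fn (phi e q I x))
        (by rw [phi_zero he hI0]; exact f.fn_base) (‖f‖ * (18 * a * β)) (by positivity)
        (fun x y => by
          refine (f.abs_sub_le _ _).trans ?_
          rw [mul_assoc]
          exact mul_le_mul_of_nonneg_left (phi_lip he ha hβ hq hI hI0 x y) (norm_nonneg _))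
      map_add' := fun f g => Lip0.ext fun x => rfl
      map_smul' := fun c f => Lip0.ext fun x => rfl } (18 * a * β) (fun f => by
        apply Lip0.norm_le' _ (by positivity)
        intro x y
        refine (f.abs_sub_le _ _).trans ?_
        calc ‖f‖ * dist (phi e q I x) (phi e q I y) ≤ ‖f‖ * (18 * a * β * dist x y) :=
              mul_le_mul_of_nonneg_left (phi_lip he ha hβ hq hI hI0 x y) (norm_nonneg _)
          _ = 18 * a * β * ‖f‖ * dist x y := by ring)
  let Q : Lip0 X 0 →L[ℝ] Lip0 M o := LinearMap.mkContinuous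
    { toFun := fun h => Lip0.mk (ret U e q m μ s P h.fn)
        (ret_base hm hμ hs hP0 (isLip_fn h)) (2 * ‖h‖ * b * α) (by positivity)
        (ret_lip hm hμ hs hb0 hb' hP hP0 (norm_nonneg _) (isLip_fn h))
      map_add' := fun f g => Lip0.ext fun x => by
        have h1 := ret_linear (U := U) (e := e) hm hμ hs hb0 hb' hP hP0 (norm_nonneg f)
          (norm_nonneg g) (isLip_fn f) (isLip_fn g) 1 x
        rw [one_mul] at h1
        show ret U e q m μ s P (fun x => f.fn x + g.fn x) x =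
          ret U e q m μ s P f.fn x + ret U e q m μ s P g.fn x
        rw [hlin1, h1]
      map_smul' := fun c f => Lip0.ext fun x => by
        have h1 := ret_linear (U := U) (e := e) hm hμ hs hb0 hb' hP hP0 (norm_nonneg f)
          le_rfl (isLip_fn f) hz c x
        rw [hret0, add_zero] at h1
        show ret U e q m μ s P (fun x => c * f.fn x) x = c * ret U e q m μ s P f.fn x
        rw [hlin2, h1] } (2 * b * α) (fun h => by
        apply Lip0.norm_le' _ (by positivity)
        intro x y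
        have := ret_lip (U := U) (e := e) hm hμ hs hb0 hb' hP hP0 (norm_nonneg h) (isLip_fn h) x y
        refine this.trans (le_of_eq ?_)
        ring)
  refine ⟨J, Q, LinearMap.mkContinuous_norm_le _ (by positivity) _,
    LinearMap.mkContinuous_norm_le _ (by positivity) _, fun f => Lip0.ext fun z => ?_⟩
  exact ret_phi hU he hm hμ hs hβ hI hP hI0 hP0 hIP (norm_nonneg f) (isLip_fn f) f.fn_base z

end final

end J8

open J8 in
theorem facE_ok : S_facE := by
  intro X E _ _ _ _ _ q a b ha hb hq hl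
  obtain ⟨J, Q, h1, h2, h3⟩ := factor' (X := X) (M := E) (o := 0) (E := fun _ => E) (fun _ => q)
    (a := a) (b := b) (α := 1) (β := 1) ha hb zero_le_one zero_le_one (fun _ => hq)
    (fun _ => hl) (fun _ v => v) (fun _ v => v) (fun _ v w => by rw [one_mul])
    (fun _ v w => by rw [one_mul]) (fun _ => rfl) (fun _ => rfl) (fun z => tendsto_const_nhds)
  rw [mul_one] at h1 h2
  exact ⟨J, Q, h1, h2, h3⟩

theorem ev_ok : S_ev := by
  intro F _ o
  have hd0 : dlt F o o = 0 := by
    ext f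
    rw [dlt_apply, Lip0.fn_base]
    rfl
  let J : Lip0 F o →L[ℝ] Lip0 (Lip0 F o →L[ℝ] ℝ) 0 := LinearMap.mkContinuous
    { toFun := fun f => Lip0.mk (fun v => v f) rfl ‖f‖ (norm_nonneg _) (fun v w => by
        have h1 : v f - w f = (v - w) f := rfl
        rw [h1, dist_eq_norm, mul_comm]
        exact (v - w).le_opNorm f)
      map_add' := fun f g => Lip0.ext fun v => map_add v f g
      map_smul' := fun c f => Lip0.ext fun v => map_smul v c f } 1 (fun f => by
        rw [one_mul]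
        refine Lip0.norm_le' _ (norm_nonneg _) (fun v w => ?_)
        show |v f - w f| ≤ _
        have h1 : v f - w f = (v - w) f := rfl
        rw [h1, dist_eq_norm, mul_comm]
        exact (v - w).le_opNorm f)
  let Q : Lip0 (Lip0 F o →L[ℝ] ℝ) 0 →L[ℝ] Lip0 F o := LinearMap.mkContinuous
    { toFun := fun g => Lip0.mk (fun p => g.fn (dlt F o p)) (by rw [hd0, Lip0.fn_base]) ‖g‖
        (norm_nonneg _) (fun p r => by
          refine (g.abs_sub_le _ _).trans (mul_le_mul_of_nonneg_left ?_ (norm_nonneg _))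
          rw [dist_eq_norm]
          exact norm_dlt_sub_le p r)
      map_add' := fun f g => Lip0.ext fun v => rfl
      map_smul' := fun c f => Lip0.ext fun v => rfl } 1 (fun g => by
        rw [one_mul]
        refine Lip0.norm_le' _ (norm_nonneg _) (fun p r => ?_)
        refine (g.abs_sub_le _ _).trans (mul_le_mul_of_nonneg_left ?_ (norm_nonneg _))
        rw [dist_eq_norm]
        exact norm_dlt_sub_le p r)
  exact ⟨J, Q, LinearMap.mkContinuous_norm_le _ zero_le_one _,
    LinearMap.mkContinuous_norm_le _ zero_le_one _, fun f => Lip0.ext fun p => rfl⟩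

theorem fin_of (h1 : S_facE) (h2 : S_quot) (h3 : S_ev) : S_fin := by
  intro X F _ _ _ _ _ o C hC hL
  obtain ⟨q, hq1, hq2⟩ := h2 X F o C hC hL
  obtain ⟨J, Q, a1, a2, a3⟩ := h1 X (Lip0 F o →L[ℝ] ℝ) q C C hC hC hq1 hq2
  obtain ⟨J', Q', b1, b2, b3⟩ := h3 F o
  refine ⟨J.comp J', Q'.comp Q, ?_, ?_, fun v => ?_⟩
  · refine (ContinuousLinearMap.opNorm_comp_le _ _).trans ?_
    calc ‖J‖ * ‖J'‖ ≤ (18 * C) * 1 := mul_le_mul a1 b1 (norm_nonneg _) (by positivity)
      _ = 18 * C := mul_one _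
  · refine (ContinuousLinearMap.opNorm_comp_le _ _).trans ?_
    calc ‖Q'‖ * ‖Q‖ ≤ 1 * (2 * C) := mul_le_mul b2 a2 (norm_nonneg _) zero_le_one
      _ = 2 * C := one_mul _
  · show Q' (Q (J (J' v))) = v
    rw [a3, b3]

end Pool.Agent.NH32.LP
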