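import Pool.Agent.NH32.LP.Defs

/-!
# LP-9: finite metric spaces
-/

set_option autoImplicit false

namespace Pool.Agent.NH32.LP

open Filter Topology Pool.Agent.H266R3.LF Pool.Agent.NH62.Lip

namespace J9

variable {F : Type} [MetricSpace F] [Fintype F] (o : F)

/-- the difference quotients -/
noncomputable def rho : Lip0 F o →ₗ[ℝ] (F × F → ℝ) where
  toFun f := fun P => (f.fn P.1 - f.fn P.2) / dist P.1 P.2
  map_add' f g := by
    funext P
    simp only [Lip0.fn_add, Pi.add_apply]
    ring
  map_smul' c f := by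
    funext P
    simp only [Lip0.fn_smul, Pi.smul_apply, smul_eq_mul, RingHom.id_apply]
    ring

omit [Fintype F] in
theorem rho_apply (f : Lip0 F o) (P : F × F) :
    rho o f P = (f.fn P.1 - f.fn P.2) / dist P.1 P.2 := rfl

omit [Fintype F] in
theorem rho_le (f : Lip0 F o) (P : F × F) : |rho o f P| ≤ ‖f‖ := by
  rw [rho_apply, abs_div, abs_of_nonneg dist_nonneg]
  exact div_le_of_le_mul₀ dist_nonneg (norm_nonneg _) (f.abs_sub_le _ _)

theorem rho_norm (f : Lip0 F o) : ‖f‖ ≤ ‖rho o f‖ := by
  refine Lip0.norm_le' _ (norm_nonneg _) fun x y => ?_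
  rcases eq_or_ne x y with rfl | hxy
  · simp
  · have hd : 0 < dist x y := dist_pos.2 hxy
    have h1 := norm_le_pi_norm (rho o f) (x, y)
    rw [Real.norm_eq_abs, rho_apply, abs_div, abs_of_pos hd, div_le_iff₀ hd] at h1
    exact h1

theorem rho_inj : Function.Injective (rho o) := by
  rw [injective_iff_map_eq_zero]
  intro f hf
  have h1 := rho_norm o f
  rw [hf, norm_zero] at h1
  exact norm_le_zero_iff.1 h1

/-- extension of functionals -/
theorem ext_dual (v : Lip0 F o →L[ℝ] ℝ) : ∃ a : F × F → ℝ, (∀ f, ∑ P, a P * rho o f P = v f) ∧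
    ∑ P, |a P| ≤ ‖v‖ := by
  classical
  let S : Submodule ℝ (F × F → ℝ) := LinearMap.range (rho o)
  let e : Lip0 F o ≃ₗ[ℝ] S := LinearEquiv.ofInjective (rho o) (rho_inj o)
  have he : ∀ f, ((e f : S) : F × F → ℝ) = rho o f := fun f => rfl
  let g : S →L[ℝ] ℝ := LinearMap.mkContinuous (v.toLinearMap.comp e.symm.toLinearMap) ‖v‖ (by
    intro x
    obtain ⟨f, rfl⟩ := e.surjective x
    show ‖v (e.symm (e f))‖ ≤ ‖v‖ * ‖(e f : S)‖
    rw [LinearEquiv.symm_apply_apply]
    refine (v.le_opNorm f).trans (mul_le_mul_of_nonneg_left ?_ (norm_nonneg _))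
    exact rho_norm o f)
  have hg : ‖g‖ ≤ ‖v‖ := LinearMap.mkContinuous_norm_le _ (norm_nonneg _) _
  obtain ⟨G, hG1, hG2⟩ := exists_extension_norm_eq S g
  have hGv : ∀ f, G (rho o f) = v f := by
    intro f
    have h1 := hG1 (e f)
    rw [he] at h1
    rw [h1]
    show v (e.symm (e f)) = v f
    rw [LinearEquiv.symm_apply_apply]
  have hGs : ∀ x : F × F → ℝ, G x = ∑ P, G (Pi.single P 1) * x P := by
    intro x
    have h1 : x = ∑ P, x P • (Pi.single P (1 : ℝ) : F × F → ℝ) := by
      conv_lhs => rw [pi_eq_sum_univ' x]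
    conv_lhs => rw [h1]
    rw [map_sum]
    refine Finset.sum_congr rfl fun P _ => ?_
    rw [map_smul, smul_eq_mul, mul_comm]
  refine ⟨fun P => G (Pi.single P 1), fun f => ?_, ?_⟩
  · rw [← hGv, hGs (rho o f)]
  · have h1 : ∑ P, |G (Pi.single P 1)| = G (fun P => SignType.sign (G (Pi.single P 1))) := by
      rw [hGs]
      refine Finset.sum_congr rfl fun P _ => ?_
      rw [← sign_mul_self, mul_comm]
    rw [h1]
    refine (le_abs_self _).trans ?_
    rw [← Real.norm_eq_abs]
    refine (G.le_opNorm _).trans ?_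
    have h2 : ‖(fun P : F × F => ((SignType.sign (G (Pi.single P 1)) : SignType) : ℝ))‖ ≤ 1 := by
      rw [pi_norm_le_iff_of_nonneg zero_le_one]
      intro P
      rcases lt_trichotomy (G (Pi.single P 1)) 0 with h | h | h
      · simp [sign_neg h]
      · simp [h]
      · simp [sign_pos h]
    calc ‖G‖ * _ ≤ ‖G‖ * 1 := mul_le_mul_of_nonneg_left h2 (norm_nonneg _)
      _ = ‖g‖ := by rw [mul_one, hG2]
      _ ≤ ‖v‖ := hg

end J9

open J9 in
theorem quot_ok : S_quot := by
  intro X F _ _ _ _ o C hC hL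
  classical
  have : Fintype F := Fintype.ofFinite F
  obtain ⟨w, φ, h1, h2, h3⟩ := hL (Fintype.card (F × F))
  let e : F × F ≃ Fin (Fintype.card (F × F)) := Fintype.equivFin (F × F)
  have hsum : ∀ x, ∑ P : F × F, |φ (e P) x| ≤ C * ‖x‖ := by
    intro x
    rw [Equiv.sum_comp e (fun i => |φ i x|)]
    exact h3 x
  have hbd : ∀ (x : X) (f : Lip0 F o), |∑ P : F × F, φ (e P) x * rho o f P| ≤ C * ‖x‖ * ‖f‖ := by
    intro x f
    refine (Finset.abs_sum_le_sum_abs _ _).trans ?_
    have h4 : ∑ P : F × F, |φ (e P) x * rho o f P| ≤ ∑ P : F × F, |φ (e P) x| * ‖f‖ := by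
      refine Finset.sum_le_sum fun P _ => ?_
      rw [abs_mul]
      exact mul_le_mul_of_nonneg_left (rho_le o f P) (abs_nonneg _)
    refine h4.trans ?_
    rw [← Finset.sum_mul]
    exact mul_le_mul_of_nonneg_right (hsum x) (norm_nonneg f)
  let q : X →ₗ[ℝ] (Lip0 F o →L[ℝ] ℝ) :=
    { toFun := fun x => LinearMap.mkContinuous
        { toFun := fun f => ∑ P : F × F, φ (e P) x * rho o f P
          map_add' := fun f g => by
            rw [← Finset.sum_add_distrib]
            refine Finset.sum_congr rfl fun P _ => ?_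
            rw [map_add, Pi.add_apply]
            ring
          map_smul' := fun c f => by
            rw [RingHom.id_apply, smul_eq_mul, Finset.mul_sum]
            refine Finset.sum_congr rfl fun P _ => ?_
            rw [map_smul, Pi.smul_apply, smul_eq_mul]
            ring } (C * ‖x‖) (fun f => hbd x f)
      map_add' := fun x y => by
        ext f
        show ∑ P : F × F, φ (e P) (x + y) * rho o f P =
          ∑ P : F × F, φ (e P) x * rho o f P + ∑ P : F × F, φ (e P) y * rho o f P
        rw [← Finset.sum_add_distrib]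
        refine Finset.sum_congr rfl fun P _ => ?_
        rw [map_add]
        ring
      map_smul' := fun c x => by
        ext f
        show ∑ P : F × F, φ (e P) (c • x) * rho o f P =
          c * ∑ P : F × F, φ (e P) x * rho o f P
        rw [Finset.mul_sum]
        refine Finset.sum_congr rfl fun P _ => ?_
        rw [map_smul, smul_eq_mul]
        ring }
  refine ⟨q, fun x => LinearMap.mkContinuous_norm_le _ (by positivity) (fun f => hbd x f),
    fun v => ?_⟩
  obtain ⟨a, ha1, ha2⟩ := ext_dual o v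
  have hφ : ∀ Q : F × F, φ (e Q) (∑ P : F × F, a P • w (e P)) = a Q := by
    intro Q
    rw [map_sum, Finset.sum_eq_single Q]
    · rw [map_smul, h1, if_pos rfl, smul_eq_mul, mul_one]
    · intro P _ hPQ
      rw [map_smul, h1, if_neg (fun h => hPQ (e.injective h).symm), smul_zero]
    · intro h
      exact absurd (Finset.mem_univ _) h
  refine ⟨∑ P : F × F, a P • w (e P), ?_, ?_⟩
  · ext f
    show ∑ Q : F × F, φ (e Q) (∑ P : F × F, a P • w (e P)) * rho o f Q = v f
    rw [← ha1 f]
    exact Finset.sum_congr rfl fun Q _ => by rw [hφ]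
  · refine (norm_sum_le _ _).trans ?_
    have h4 : ∑ P : F × F, ‖a P • w (e P)‖ ≤ ∑ P : F × F, C * |a P| := by
      refine Finset.sum_le_sum fun P _ => ?_
      rw [norm_smul, Real.norm_eq_abs, mul_comm]
      exact mul_le_mul_of_nonneg_right (h2 _) (abs_nonneg _)
    refine h4.trans ?_
    rw [← Finset.mul_sum]
    exact mul_le_mul_of_nonneg_left ha2 hC

end Pool.Agent.NH32.LP
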